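import Pool.Agent.V11188.MC.Defs

/-!
# A mirror code on the dicyclic group of order 12 with parameters `[[12, 5, 3]]`
-/

namespace Pool.Agent.V11188.MC

open Module

/-- The dicyclic group of order 12: the element `m` stands for `x ^ (m % 3) * t ^ (m / 3)`,
where `x ^ 3 = 1`, `t ^ 4 = 1`, `t * x * t⁻¹ = x⁻¹`. -/
def Dic : Type := Fin 12

instance : Fintype Dic := inferInstanceAs (Fintype (Fin 12))
instance : DecidableEq Dic := inferInstanceAs (DecidableEq (Fin 12))

/-- multiplication on codes -/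
def mulN (a b : ℕ) : ℕ :=
  (a % 3 + (1 + (a / 3) % 2) * (b % 3)) % 3 + 3 * ((a / 3 + b / 3) % 4)

/-- inversion on codes -/
def invN (a : ℕ) : ℕ := ((2 - (a / 3) % 2) * (a % 3)) % 3 + 3 * ((4 - a / 3) % 4)

lemma mulN_lt (a b : ℕ) : mulN a b < 12 := by unfold mulN; omega
lemma invN_lt (a : ℕ) : invN a < 12 := by unfold invN; omega

/-- multiplication -/
def dmul (a b : Fin 12) : Fin 12 := ⟨mulN a.1 b.1, mulN_lt _ _⟩
/-- inversion -/
def dinv (a : Fin 12) : Fin 12 := ⟨invN a.1, invN_lt _⟩

lemma dmul_assoc : ∀ a b c : Fin 12, dmul (dmul a b) c = dmul a (dmul b c) := by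
  decide +kernel
lemma one_dmul : ∀ a : Fin 12, dmul 0 a = a := by decide +kernel
lemma dmul_one : ∀ a : Fin 12, dmul a 0 = a := by decide +kernel
lemma dinv_dmul : ∀ a : Fin 12, dmul (dinv a) a = 0 := by decide +kernel

instance : Group Dic where
  mul := dmul
  one := (0 : Fin 12)
  inv := dinv
  mul_assoc := dmul_assoc
  one_mul := one_dmul
  mul_one := dmul_one
  inv_mul_cancel := dinv_dmul

/-- a set from a bit mask -/
def maskSet (m : ℕ) : Set Dic := {g | Nat.testBit m (g : Fin 12).1 = true}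

/-- the corresponding function -/
def bit (m : ℕ) (g : Fin 12) : ZMod 2 := if Nat.testBit m g.1 then 1 else 0

lemma ind_mask (m : ℕ) (g : Dic) : ind (maskSet m) g = bit m g := by
  unfold ind bit maskSet
  by_cases h : Nat.testBit m (g : Fin 12).1 = true
  · rw [if_pos h]
    exact if_pos h
  · rw [if_neg h]
    exact if_neg h

/-- `A = {1, x, t, t²}` -/
def setA : Set Dic := maskSet 0x4b
/-- `B = {1, x, x t, x² t, x² t², t³}` -/
def setB : Set Dic := maskSet 0x333

/-- `Z`-part of the check -/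
def zc (g q : Fin 12) : ZMod 2 := bit 0x4b (dmul q (dinv g))
/-- `X`-part of the check -/
def xc (g q : Fin 12) : ZMod 2 := bit 0x333 (dmul g q)

lemma check_dic (g : Dic) : check .asym setA setB g = (fun q => zc g q, fun q => xc g q) := by
  unfold check setA setB
  simp only [ind_mask]
  rfl

lemma valid_aux : ∀ g h : Fin 12, ∑ q : Fin 12, (zc g q * xc h q + xc g q * zc h q) = 0 := by
  decide +kernel

lemma valid_dic : Valid .asym setA setB := by
  intro g h
  rw [check_dic, check_dic]
  exact valid_aux g h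

lemma noncomm_dic : ∃ a b : Dic, a * b ≠ b * a :=
  ⟨(1 : Fin 12), (3 : Fin 12), by decide⟩

lemma dist_aux : ∀ p q : Fin 12, p ≠ q → ∀ a b c d : ZMod 2,
    (∀ g : Fin 12, (a * xc g p + b * zc g p) + (c * xc g q + d * zc g q) = 0) →
      a = 0 ∧ b = 0 ∧ c = 0 ∧ d = 0 := by
  decide +kernel

/-- bit of a number -/
def bitN (m k : ℕ) : ZMod 2 := if Nat.testBit m k then 1 else 0

/-- a reduced basis of the span of the checks, 12 bits `Z`-part, 12 bits `X`-part -/
def bV (i : Fin 7) : ℕ := ![1755, 2990, 258930, 1864135, 2929406, 4526695, 9031846] i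
/-- its expression by the checks -/
def bC (i : Fin 7) : ℕ := ![30, 45, 70, 77, 10, 66, 2] i
/-- pivots -/
def bP (i : Fin 7) : ℕ := ![10, 11, 17, 20, 21, 22, 23] i

/-- coordinates of a check -/
def crd (g : Fin 12) (k : ℕ) : ZMod 2 :=
  if k < 12 then zc g ⟨k % 12, Nat.mod_lt _ (by norm_num)⟩
  else xc g ⟨k % 12, Nat.mod_lt _ (by norm_num)⟩

lemma basis_z : ∀ (i : Fin 7) (q : Fin 12),
    bitN (bV i) q.1 = ∑ g : Fin 12, bitN (bC i) g.1 * zc g q := by decide +kernel
lemma basis_x : ∀ (i : Fin 7) (q : Fin 12),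
    bitN (bV i) (q.1 + 12) = ∑ g : Fin 12, bitN (bC i) g.1 * xc g q := by decide +kernel
lemma check_z : ∀ (g : Fin 12) (q : Fin 12),
    zc g q = ∑ i : Fin 7, crd g (bP i) * bitN (bV i) q.1 := by decide +kernel
lemma check_x : ∀ (g : Fin 12) (q : Fin 12),
    xc g q = ∑ i : Fin 7, crd g (bP i) * bitN (bV i) (q.1 + 12) := by decide +kernel

/-- the basis as Pauli operators -/
def bE (i : Fin 7) : Pauli Dic :=
  (fun q : Fin 12 => bitN (bV i) q.1, fun q : Fin 12 => bitN (bV i) (q.1 + 12))

lemma stab_eq : stab .asym setA setB = Submodule.span (ZMod 2) (Set.range bE) := by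
  apply le_antisymm
  · unfold stab
    rw [Submodule.span_le]
    rintro _ ⟨g, rfl⟩
    rw [check_dic]
    have : ((fun q => zc g q, fun q => xc g q) : Pauli Dic) =
        ∑ i : Fin 7, crd g (bP i) • bE i := by
      apply Prod.ext
      · rw [Prod.fst_sum]
        funext q
        rw [Finset.sum_apply]
        exact check_z g q
      · rw [Prod.snd_sum]
        funext q
        rw [Finset.sum_apply]
        exact check_x g q
    exact (congrArg (fun v : Pauli Dic => v ∈ Submodule.span (ZMod 2) (Set.range bE)) this).mpr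
      (Submodule.sum_mem _ fun i _ =>
        Submodule.smul_mem _ _ (Submodule.subset_span ⟨i, rfl⟩))
  · rw [Submodule.span_le]
    rintro _ ⟨i, rfl⟩
    have : bE i = ∑ g : Dic, bitN (bC i) (g : Fin 12).1 • check .asym setA setB g := by
      simp only [check_dic]
      apply Prod.ext
      · rw [Prod.fst_sum]
        funext q
        rw [Finset.sum_apply]
        exact basis_z i q
      · rw [Prod.snd_sum]
        funext q
        rw [Finset.sum_apply]
        exact basis_x i q
    rw [this]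
    exact Submodule.sum_mem _ fun g _ => Submodule.smul_mem _ _ (Submodule.subset_span ⟨g, rfl⟩)

/-- coordinate functional -/
def cf (k : ℕ) : Pauli Dic →ₗ[ZMod 2] ZMod 2 :=
  if k < 12 then (LinearMap.proj (⟨k % 12, Nat.mod_lt _ (by norm_num)⟩ : Fin 12)).comp
      (LinearMap.fst (ZMod 2) (Dic → ZMod 2) (Dic → ZMod 2))
  else (LinearMap.proj (⟨k % 12, Nat.mod_lt _ (by norm_num)⟩ : Fin 12)).comp
      (LinearMap.snd (ZMod 2) (Dic → ZMod 2) (Dic → ZMod 2))

lemma cf_bE : ∀ i j : Fin 7, cf (bP j) (bE i) = if i = j then 1 else 0 := by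
  intro i j
  unfold cf bE
  fin_cases j <;> fin_cases i <;> rfl

lemma bE_indep : LinearIndependent (ZMod 2) bE := by
  rw [Fintype.linearIndependent_iff]
  intro u hu j
  have h := congrArg (cf (bP j)) hu
  rw [map_sum, map_zero] at h
  simp only [map_smul, cf_bE, smul_eq_mul, mul_ite, mul_one, mul_zero, Finset.sum_ite_eq',
    Finset.mem_univ, if_true] at h
  exact h

lemma finrank_stab : finrank (ZMod 2) (stab .asym setA setB) = 7 := by
  rw [stab_eq, finrank_span_eq_card bE_indep, Fintype.card_fin]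

lemma card_dic : Fintype.card Dic = 12 := Fintype.card_fin 12

lemma numK_dic : numK .asym setA setB = 5 := by
  unfold numK
  rw [finrank_stab, card_dic]

/-- nondegeneracy -/
lemma small_zero (v : Pauli Dic) (hv : ∀ g, symp v (check .asym setA setB g) = 0)
    (hw : wt v ≤ 2) : v = 0 := by
  classical
  unfold wt at hw
  obtain ⟨p, q, hpq, hs⟩ : ∃ p q : Dic, p ≠ q ∧ ∀ g, g ≠ p → g ≠ q → v.1 g = 0 ∧ v.2 g = 0 := by
    obtain ⟨u, hu, hu2⟩ := Set.exists_superset_subset_encard_eq
      (s := {q : Dic | v.1 q ≠ 0 ∨ v.2 q ≠ 0}) (t := Set.univ) (k := 2) (Set.subset_univ _)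
      (by
        rw [← Set.Finite.cast_ncard_eq (Set.toFinite _)]
        exact_mod_cast hw)
      (by
        rw [Set.encard_univ, ENat.card_eq_coe_fintype_card, card_dic]
        norm_num)
    obtain ⟨p, q, hpq, rfl⟩ := Set.encard_eq_two.1 hu2.2
    refine ⟨p, q, hpq, fun g h1 h2 => ?_⟩
    by_contra hc
    have : g ∈ ({p, q} : Set Dic) := hu (by
      simp only [Set.mem_setOf_eq]
      tauto)
    rcases this with h | h
    · exact h1 h
    · exact h2 h
  have key : ∀ g : Fin 12, (v.1 p * xc g p + v.2 p * zc g p) +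
      (v.1 q * xc g q + v.2 q * zc g q) = 0 := by
    intro g
    have h := hv g
    rw [check_dic] at h
    unfold symp at h
    have h2 : ∑ s : Dic, (v.1 s * xc g s + v.2 s * zc g s) =
        ∑ s ∈ ({p, q} : Finset Dic), (v.1 s * xc g s + v.2 s * zc g s) := by
      symm
      apply Finset.sum_subset (Finset.subset_univ _)
      intro s _ hs'
      simp only [Finset.mem_insert, Finset.mem_singleton, not_or] at hs'
      obtain ⟨e1, e2⟩ := hs s hs'.1 hs'.2
      rw [e1, e2]
      ring
    rw [Finset.sum_pair hpq] at h2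
    rw [← h2]
    exact h
  obtain ⟨h1, h2, h3, h4⟩ := dist_aux p q hpq _ _ _ _ key
  apply Prod.ext
  · funext s
    by_cases e1 : s = p
    · rw [e1]; exact h1
    · by_cases e2 : s = q
      · rw [e2]; exact h3
      · exact (hs s e1 e2).1
  · funext s
    by_cases e1 : s = p
    · rw [e1]; exact h2
    · by_cases e2 : s = q
      · rw [e2]; exact h4
      · exact (hs s e1 e2).2

/-- a logical operator of weight 3 -/
def vL : Pauli Dic := (fun q : Fin 12 => bitN 7 q.1, fun q : Fin 12 => bitN 7 q.1)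
/-- a logical operator anticommuting with it -/
def wL : Pauli Dic := (fun q : Fin 12 => bitN 144 q.1, fun q : Fin 12 => bitN 17 q.1)

lemma vL_aux : ∀ g : Fin 12, ∑ q : Fin 12, (bitN 7 q.1 * xc g q + bitN 7 q.1 * zc g q) = 0 := by
  decide +kernel
lemma wL_aux : ∀ g : Fin 12, ∑ q : Fin 12, (bitN 144 q.1 * xc g q + bitN 17 q.1 * zc g q) = 0 := by
  decide +kernel
lemma vw_aux : ∑ q : Fin 12, (bitN 144 q.1 * bitN 7 q.1 + bitN 17 q.1 * bitN 7 q.1) = 1 := by
  decide +kernel

lemma vL_comm (g : Dic) : symp vL (check .asym setA setB g) = 0 := by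
  rw [check_dic]
  exact vL_aux g

lemma wL_comm (g : Dic) : symp wL (check .asym setA setB g) = 0 := by
  rw [check_dic]
  exact wL_aux g

/-- the symplectic form as a linear map -/
def sympL (v : Pauli Dic) : Pauli Dic →ₗ[ZMod 2] ZMod 2 where
  toFun w := symp v w
  map_add' a b := by
    unfold symp
    rw [← Finset.sum_add_distrib]
    refine Finset.sum_congr rfl fun q _ => ?_
    simp only [Prod.fst_add, Prod.snd_add, Pi.add_apply]
    ring
  map_smul' t a := by
    unfold symp
    simp only [Prod.smul_fst, Prod.smul_snd, Pi.smul_apply, smul_eq_mul, RingHom.id_apply]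
    rw [Finset.mul_sum]
    refine Finset.sum_congr rfl fun q _ => ?_
    ring

lemma vL_notMem : vL ∉ stab .asym setA setB := by
  intro h
  have h1 : stab .asym setA setB ≤ LinearMap.ker (sympL wL) := by
    unfold stab
    rw [Submodule.span_le]
    rintro _ ⟨g, rfl⟩
    exact wL_comm g
  have h2 : symp wL vL = 0 := h1 h
  have h3 : symp wL vL = 1 := vw_aux
  rw [h2] at h3
  exact zero_ne_one h3

lemma wt_vL : wt vL = 3 := by
  unfold wt
  have : {q : Dic | vL.1 q ≠ 0 ∨ vL.2 q ≠ 0} =
      ((Finset.univ.filter fun q : Fin 12 => bitN 7 q.1 ≠ 0 : Finset (Fin 12)) : Set (Fin 12)) := by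
    ext q
    simp only [Finset.coe_filter, Finset.mem_univ, true_and, Set.mem_setOf_eq]
    exact or_self_iff
  calc Set.ncard {q : Dic | vL.1 q ≠ 0 ∨ vL.2 q ≠ 0} =
      Set.ncard (α := Fin 12)
        ((Finset.univ.filter fun q : Fin 12 => bitN 7 q.1 ≠ 0 : Finset (Fin 12)) :
          Set (Fin 12)) := congrArg _ this
    _ = (Finset.univ.filter fun q : Fin 12 => bitN 7 q.1 ≠ 0 : Finset (Fin 12)).card :=
      Set.ncard_coe_finset _
    _ = 3 := by decide +kernel

lemma dist_dic : dist .asym setA setB = 3 := by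
  unfold dist
  apply le_antisymm
  · apply Nat.sInf_le
    exact ⟨vL, ⟨vL_comm, vL_notMem⟩, wt_vL⟩
  · apply le_csInf
    · exact ⟨3, vL, ⟨vL_comm, vL_notMem⟩, wt_vL⟩
    · rintro w ⟨v, ⟨hv, hv'⟩, rfl⟩
      by_contra hc
      push Not at hc
      have := small_zero v hv (by omega)
      apply hv'
      rw [this]
      exact Submodule.zero_mem _

end Pool.Agent.V11188.MC
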