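import Pool.Agent.V11188.MC.Defs

/-!
# Mirror codes on abelian groups: translations
-/

namespace Pool.Agent.V11188.MC

open Module

variable {G : Type*} [CommGroup G]

/-- Translation: `L h f g = f (g h)`. -/
def L (h : G) : (G → ZMod 2) →ₗ[ZMod 2] (G → ZMod 2) :=
  LinearMap.funLeft (ZMod 2) (ZMod 2) (fun g => g * h)

@[simp] lemma L_apply (h : G) (f : G → ZMod 2) (g : G) : L h f g = f (g * h) := rfl

lemma L_L (h k : G) (f : G → ZMod 2) : L h (L k f) = L (h * k) f := by
  ext g; simp [mul_assoc]

@[simp] lemma L_one (f : G → ZMod 2) : L (1 : G) f = f := by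
  ext g; simp

/-- `1 + L r`. -/
def del (r : G) : (G → ZMod 2) →ₗ[ZMod 2] (G → ZMod 2) := LinearMap.id + L r

@[simp] lemma del_apply (r : G) (f : G → ZMod 2) : del r f = f + L r f := rfl

lemma add_self (f : G → ZMod 2) : f + f = 0 := ZModModule.add_self f

lemma add_eq_zero' {f g : G → ZMod 2} : f + g = 0 ↔ f = g := by
  constructor
  · intro h
    have : f + g + g = 0 + g := by rw [h]
    rwa [add_assoc, add_self, add_zero, zero_add] at this
  · rintro rfl
    exact add_self f

lemma L_del (h r : G) (f : G → ZMod 2) : L h (del r f) = del r (L h f) := by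
  simp only [del_apply, map_add, L_L, mul_comm h r]

lemma mem_ker_del {r : G} {f : G → ZMod 2} : f ∈ LinearMap.ker (del r) ↔ L r f = f := by
  rw [LinearMap.mem_ker, del_apply, add_eq_zero']
  exact eq_comm

variable [Fintype G]

lemma finrank_ker_del (r : G) :
    finrank (ZMod 2) (LinearMap.ker (del r)) * orderOf r ≤ Fintype.card G := by
  classical
  let H := Subgroup.zpowers r
  let Φ : ((G ⧸ H) → ZMod 2) →ₗ[ZMod 2] (G → ZMod 2) :=
    LinearMap.funLeft (ZMod 2) (ZMod 2) (fun g => (g : G ⧸ H))
  have h1 : LinearMap.ker (del r) ≤ LinearMap.range Φ := by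
    intro f hf
    rw [mem_ker_del] at hf
    have hf' : ∀ g, f (g * r) = f g := fun g => congrFun hf g
    have hz : ∀ (n : ℤ) g, f (g * r ^ n) = f g := by
      intro n
      induction n with
      | zero => intro g; simp
      | succ i ih => intro g; rw [zpow_add_one, ← mul_assoc, hf', ih]
      | pred i ih =>
        intro g
        have := hf' (g * r ^ (-(i:ℤ) - 1))
        rw [mul_assoc, ← zpow_add_one, sub_add_cancel, ih] at this
        exact this.symm
    refine ⟨fun x => f (Quotient.out x), ?_⟩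
    ext g
    change f (Quotient.out (g : G ⧸ H)) = f g
    obtain ⟨h, hh⟩ := QuotientGroup.mk_out_eq_mul H g
    rw [hh]
    obtain ⟨n, hn⟩ := Subgroup.mem_zpowers_iff.1 h.2
    rw [← hn]
    exact hz n g
  have h2 : finrank (ZMod 2) (LinearMap.ker (del r)) ≤ Nat.card (G ⧸ H) := by
    calc finrank (ZMod 2) (LinearMap.ker (del r)) ≤ finrank (ZMod 2) (LinearMap.range Φ) :=
          Submodule.finrank_mono h1
      _ ≤ finrank (ZMod 2) ((G ⧸ H) → ZMod 2) := LinearMap.finrank_range_le Φ
      _ = Nat.card (G ⧸ H) := by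
          rw [Module.finrank_fintype_fun_eq_card, Nat.card_eq_fintype_card]
  have h3 : Fintype.card G = Nat.card (G ⧸ H) * orderOf r := by
    rw [← Nat.card_eq_fintype_card, Subgroup.card_eq_card_quotient_mul_card_subgroup H,
      Nat.card_zpowers]
  rw [h3]
  exact Nat.mul_le_mul_right _ h2

lemma finrank_range_del (r : G) :
    finrank (ZMod 2) (LinearMap.range (del r)) + finrank (ZMod 2) (LinearMap.ker (del r)) =
      Fintype.card G := by
  rw [LinearMap.finrank_range_add_finrank_ker, Module.finrank_fintype_fun_eq_card]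

section

open Classical

lemma L_single (h p : G) : L h (Pi.single p 1) = Pi.single (p * h⁻¹) 1 := by
  ext g
  simp only [L_apply, Pi.single_apply]
  have : g * h = p ↔ g = p * h⁻¹ := by rw [eq_mul_inv_iff_mul_eq]
  simp only [this]

/-- a translation-invariant subspace of small dimension contains no monomial -/
lemma single_notMem {W : Submodule (ZMod 2) (G → ZMod 2)} (hW : ∀ h, ∀ f ∈ W, L h f ∈ W)
    (hr : finrank (ZMod 2) W + 5 ≤ Fintype.card G) (p : G) : Pi.single p 1 ∉ W := by
  intro hp
  have htop : W = ⊤ := by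
    rw [eq_top_iff, ← (Pi.basisFun (ZMod 2) G).span_eq, Submodule.span_le]
    rintro _ ⟨q, rfl⟩
    rw [Pi.basisFun_apply]
    have := hW (q⁻¹ * p) _ hp
    have e : p * (q⁻¹ * p)⁻¹ = q := by
      rw [mul_inv_rev, inv_inv, mul_inv_cancel_left]
    rw [L_single, e] at this
    exact this
  rw [htop, finrank_top, Module.finrank_fintype_fun_eq_card] at hr
  omega

lemma range_del_eq (r : G) : LinearMap.range (del r) =
    Submodule.span (ZMod 2) (Set.range fun p : G => del r (Pi.single p 1)) := by
  rw [LinearMap.range_eq_map, ← (Pi.basisFun (ZMod 2) G).span_eq, Submodule.map_span,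
    ← Set.range_comp]
  congr 2

lemma pair_mem {W : Submodule (ZMod 2) (G → ZMod 2)} (hW : ∀ h, ∀ f ∈ W, L h f ∈ W)
    (hr : finrank (ZMod 2) W + 5 ≤ Fintype.card G) (hn : Fintype.card G ≤ 12) {p r : G}
    (hr1 : r ≠ 1) (hp : Pi.single p 1 + Pi.single (p * r) 1 ∈ W) :
    r * r = 1 ∧ 10 ≤ Fintype.card G := by
  have hle : LinearMap.range (del r) ≤ W := by
    rw [range_del_eq, Submodule.span_le]
    rintro _ ⟨s, rfl⟩
    have := hW (s⁻¹ * (p * r)) _ hp
    rw [map_add, L_single, L_single] at this
    simp only [del_apply, L_single, SetLike.mem_coe]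
    have e1 : p * (s⁻¹ * (p * r))⁻¹ = s * r⁻¹ := by
      rw [mul_inv_rev, inv_inv, mul_inv_rev]
      rw [mul_comm r⁻¹ p⁻¹, mul_assoc, mul_inv_cancel_left, mul_comm]
    have e2 : p * r * (s⁻¹ * (p * r))⁻¹ = s := by
      rw [mul_inv_rev, inv_inv, mul_inv_cancel_left]
    rw [e1, e2, add_comm] at this
    exact this
  have h1 := Submodule.finrank_mono hle
  have h2 := finrank_range_del r
  have h3 := finrank_ker_del r
  have h4 : 5 ≤ finrank (ZMod 2) (LinearMap.ker (del r)) := by omega
  have h5 : orderOf r ≤ 2 := by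
    by_contra hc
    push Not at hc
    have : 5 * 3 ≤ finrank (ZMod 2) (LinearMap.ker (del r)) * orderOf r := Nat.mul_le_mul h4 hc
    omega
  have h6 : orderOf r ≠ 1 := fun h => hr1 (orderOf_eq_one_iff.1 h)
  have h7 : 0 < orderOf r := orderOf_pos r
  have h8 : orderOf r = 2 := by omega
  refine ⟨?_, ?_⟩
  · have := pow_orderOf_eq_one r
    rw [h8, pow_two] at this
    exact this
  · rw [h8] at h3
    omega

end

end Pool.Agent.V11188.MC
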