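import Pool.Agent.V11188.MC.Good

/-!
# Mirror codes on abelian groups: consequences of `Good`
-/

namespace Pool.Agent.V11188.MC

open Module

section quot

variable {M : Type*} [AddCommGroup M] [Module (ZMod 2) M] [FiniteDimensional (ZMod 2) M]

lemma add_mem_of_finrank {W V : Submodule (ZMod 2) M} (hWV : W ≤ V)
    (hf : finrank (ZMod 2) V ≤ finrank (ZMod 2) W + 1) {u v : M} (hu : u ∈ V) (hv : v ∈ V)
    (hu' : u ∉ W) (hv' : v ∉ W) : u + v ∈ W := by
  have h1 : W < W ⊔ Submodule.span (ZMod 2) {u} := by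
    refine lt_of_le_of_ne le_sup_left ?_
    intro h
    apply hu'
    rw [h]
    exact Submodule.mem_sup_right (Submodule.mem_span_singleton_self u)
  have h2 := Submodule.finrank_lt_finrank_of_lt h1
  have h3 : W ⊔ Submodule.span (ZMod 2) {u} ≤ V := by
    rw [sup_le_iff]
    refine ⟨hWV, ?_⟩
    rw [Submodule.span_singleton_le_iff_mem]
    exact hu
  have h4 : W ⊔ Submodule.span (ZMod 2) {u} = V :=
    Submodule.eq_of_le_of_finrank_le h3 (by omega)
  rw [← h4] at hv
  obtain ⟨w, hw, y, hy, rfl⟩ := Submodule.mem_sup.1 hv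
  obtain ⟨t, rfl⟩ := Submodule.mem_span_singleton.1 hy
  have ht : ∀ t : ZMod 2, t = 0 ∨ t = 1 := by decide
  rcases ht t with rfl | rfl
  · exfalso
    apply hv'
    rw [zero_smul, add_zero]
    exact hw
  · rw [one_smul, add_comm w u, ← add_assoc, ZModModule.add_self, zero_add]
    exact hw

end quot

variable {G : Type*} [CommGroup G] [Fintype G]

lemma tau_tau_inv (h : G) (v : Pauli G) : tau h⁻¹ (tau h v) = v := by
  simp only [tau_apply, L_L, inv_inv]
  simp

lemma add_tau_mem {A B : Set G} {W : Submodule (ZMod 2) (Pauli G)}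
    (hWV : W ≤ stab .sym A B)
    (hf : finrank (ZMod 2) (stab .sym A B) ≤ finrank (ZMod 2) W + 1)
    (hW : ∀ h, ∀ w ∈ W, tau h w ∈ W) {v : Pauli G} (hv : v ∈ stab .sym A B) (h : G) :
    v + tau h v ∈ W := by
  by_cases hvW : v ∈ W
  · exact W.add_mem hvW (hW h v hvW)
  · refine add_mem_of_finrank hWV hf hv (tau_mem h hv) hvW ?_
    intro hc
    apply hvW
    rw [← tau_tau_inv h v]
    exact hW _ _ hc

lemma exists_pow_four {G : Type*} [CommGroup G] [Fintype G] (h1 : 10 ≤ Fintype.card G)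
    (h2 : Fintype.card G ≤ 12) : ∃ σ : G, σ ^ 4 ≠ 1 := by
  have key : ∀ p : ℕ, p.Prime → ¬ p ∣ 4 → p ∣ Fintype.card G → ∃ σ : G, σ ^ 4 ≠ 1 := by
    intro p hp h4 hd
    haveI := Fact.mk hp
    obtain ⟨σ, hσ⟩ := exists_prime_orderOf_dvd_card p hd
    refine ⟨σ, fun hc => h4 ?_⟩
    rw [← hσ]
    exact orderOf_dvd_of_pow_eq_one hc
  have h3 : Fintype.card G = 10 ∨ Fintype.card G = 11 ∨ Fintype.card G = 12 := by omega
  rcases h3 with h | h | h
  · exact key 5 (by norm_num) (by norm_num) (by rw [h]; norm_num)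
  · exact key 11 (by norm_num) (by norm_num) (by rw [h])
  · exact key 3 (by norm_num) (by norm_num) (by rw [h]; norm_num)

/-- the syndrome map -/
noncomputable def Syn (A B : Set G) : Pauli G →ₗ[ZMod 2] (G → ZMod 2) :=
  LinearMap.coprod (Fintype.linearCombination (ZMod 2) (fun q => L q (cB B)))
    (Fintype.linearCombination (ZMod 2) (fun q => L q⁻¹ (aA A)))

lemma Syn_apply (A B : Set G) (v : Pauli G) (g : G) :
    Syn A B v g = symp v (check .sym A B g) := by
  obtain ⟨z, x⟩ := v
  rw [syn]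
  unfold Syn
  simp only [LinearMap.coprod_apply, Fintype.linearCombination_apply, Pi.add_apply,
    Finset.sum_apply, Pi.smul_apply, smul_eq_mul, Finset.sum_add_distrib]

section
open Classical

lemma Syn_z (A B : Set G) (p : G) : Syn A B (Pi.single p 1, 0) = L p (cB B) := by
  unfold Syn
  rw [LinearMap.coprod_apply, map_zero, add_zero, Fintype.linearCombination_apply_single, one_smul]

lemma Syn_x (A B : Set G) (p : G) : Syn A B (0, Pi.single p 1) = L p⁻¹ (aA A) := by
  unfold Syn
  rw [LinearMap.coprod_apply, map_zero, zero_add, Fintype.linearCombination_apply_single, one_smul]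

lemma Good.mem {A B : Set G} (h : Good A B) {v : Pauli G} (hs : Syn A B v = 0) (hw : wt v ≤ 2) :
    v ∈ stab .sym A B :=
  h.hd v (fun g => by rw [← Syn_apply, hs]; rfl) hw

lemma Good.fst_fin {A B : Set G} (h : Good A B) :
    finrank (ZMod 2) ((stab .sym A B).map (LinearMap.fst (ZMod 2) (G → ZMod 2) (G → ZMod 2))) + 5
      ≤ Fintype.card G :=
  le_trans (Nat.add_le_add_right (Submodule.finrank_map_le _ _) 5) h.hk

lemma Good.pair {A B : Set G} (h : Good A B) {p r : G} (hr : r ≠ 1) {x : G → ZMod 2}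
    (hp : ((Pi.single p 1 + Pi.single (p * r) 1, x) : Pauli G) ∈ stab .sym A B) :
    r * r = 1 ∧ 10 ≤ Fintype.card G :=
  pair_mem (fun k f hf => fst_inv k f hf) h.fst_fin h.hn hr ⟨_, hp, rfl⟩

lemma Good.single {A B : Set G} (h : Good A B) {p : G} {x : G → ZMod 2} :
    ((Pi.single p 1, x) : Pauli G) ∉ stab .sym A B := fun hp =>
  single_notMem (fun k f hf => fst_inv k f hf) h.fst_fin p ⟨_, hp, rfl⟩

lemma Good.c1_aux {A B : Set G} (h : Good A B) {r : G} (hr : r ≠ 1)
    (hc : L r (cB B) = cB B) :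
    (∀ q, ((Pi.single q 1 + Pi.single (q * r) 1, 0) : Pauli G) ∈ stab .sym A B) ∧
      r * r = 1 ∧ 10 ≤ Fintype.card G := by
  have hmem : ∀ q, ((Pi.single q 1 + Pi.single (q * r) 1, 0) : Pauli G) ∈ stab .sym A B := by
    intro q
    apply h.mem
    · have : ((Pi.single q 1 + Pi.single (q * r) 1, 0) : Pauli G) =
          (Pi.single q 1, 0) + (Pi.single (q * r) 1, 0) := by
        rw [Prod.mk_add_mk, add_zero]
      rw [this, map_add, Syn_z, Syn_z, ← L_L, hc, add_self]
    · refine wt_le_two q (q * r) ?_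
      intro g h1 h2
      simp [Pi.single_apply, h1, h2]
  exact ⟨hmem, h.pair hr (hmem 1)⟩

lemma tau_inl_range (r : G) (h : G) : ∀ w ∈ (LinearMap.range (del r)).map
    (LinearMap.inl (ZMod 2) (G → ZMod 2) (G → ZMod 2)), tau h w ∈ (LinearMap.range (del r)).map
    (LinearMap.inl (ZMod 2) (G → ZMod 2) (G → ZMod 2)) := by
  rintro _ ⟨_, ⟨f, rfl⟩, rfl⟩
  refine ⟨L h (del r f), ⟨L h f, (L_del h r f).symm⟩, ?_⟩
  simp [-del_apply]

lemma check_one (A B : Set G) : check .sym A B 1 = (fun g => ind A g, cB B) := by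
  unfold check cB
  simp

lemma finrank_stab_le {A B : Set G} (h : Good A B) {r : G} (hrr : orderOf r = 2)
    {W : Submodule (ZMod 2) (Pauli G)}
    (hW : finrank (ZMod 2) (LinearMap.range (del r)) ≤ finrank (ZMod 2) W) :
    finrank (ZMod 2) (stab .sym A B) ≤ finrank (ZMod 2) W + 1 := by
  have h1 := finrank_range_del r
  have h2 := finrank_ker_del r
  have h3 := h.hk
  have h4 := h.hn
  rw [hrr] at h2
  omega

lemma orderOf_two {r : G} (hr : r ≠ 1) (hrr : r * r = 1) : orderOf r = 2 :=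
  orderOf_eq_prime (by rw [pow_two]; exact hrr) hr

theorem Good.c1 {A B : Set G} (h : Good A B) {r : G} (hr : r ≠ 1) : L r (cB B) ≠ cB B := by
  intro hc
  obtain ⟨hmem, hrr, h10⟩ := h.c1_aux hr hc
  set W := (LinearMap.range (del r)).map (LinearMap.inl (ZMod 2) (G → ZMod 2) (G → ZMod 2))
    with hW
  have hWV : W ≤ stab .sym A B := by
    rw [hW, range_del_eq, Submodule.map_span, Submodule.span_le]
    rintro _ ⟨_, ⟨p, rfl⟩, rfl⟩
    have h1 := hmem (p * r⁻¹)
    have e : p * r⁻¹ * r = p := by group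
    rw [e, add_comm] at h1
    simp only [del_apply, L_single, LinearMap.inl_apply, SetLike.mem_coe]
    exact h1
  have hfin : finrank (ZMod 2) (stab .sym A B) ≤ finrank (ZMod 2) W + 1 := by
    apply finrank_stab_le h (orderOf_two hr hrr)
    rw [hW]
    exact le_of_eq (Submodule.equivMapOfInjective _ LinearMap.inl_injective _).finrank_eq
  obtain ⟨σ, hσ⟩ := exists_pow_four h10 h.hn
  have h1 := add_tau_mem hWV hfin (tau_inl_range r)
    (Submodule.subset_span ⟨1, rfl⟩ : check .sym A B 1 ∈ stab .sym A B) σ⁻¹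
  obtain ⟨f, -, hf⟩ := h1
  have h2 : cB B + L σ (cB B) = 0 := by
    have := congrArg Prod.snd hf
    rw [check_one] at this
    simp only [LinearMap.inl_apply, Prod.snd_add, tau_apply, inv_inv] at this
    exact this.symm
  have hσ1 : σ ≠ 1 := by
    rintro rfl
    exact hσ (one_pow 4)
  have h3 := (h.c1_aux hσ1 (add_eq_zero'.1 h2).symm).2.1
  apply hσ
  rw [show 4 = 2 + 2 from rfl, pow_add, pow_two, h3, one_mul]


theorem Good.c1' {A B : Set G} (h : Good A B) {r : G} (hr : r ≠ 1) : L r (aA A) ≠ aA A := by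
  intro hc
  apply h.swap.c1 (inv_ne_one.2 hr)
  ext g
  have := congrFun hc g⁻¹
  simp only [L_apply, aA, mul_inv_rev, inv_inv] at this
  simp only [L_apply, cB]
  rw [mul_comm]
  exact this

theorem Good.c2 {A B : Set G} (h : Good A B) (k : G) : cB B ≠ L k (aA A) := by
  intro hc
  have hm : ((Pi.single 1 1, Pi.single k⁻¹ 1) : Pauli G) ∈ stab .sym A B := by
    apply h.mem
    · have : ((Pi.single 1 1, Pi.single k⁻¹ 1) : Pauli G) =
          (Pi.single 1 1, 0) + (0, Pi.single k⁻¹ 1) := by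
        rw [Prod.mk_add_mk, add_zero, zero_add]
      rw [this, map_add, Syn_z, Syn_x, inv_inv, L_one, ← hc, add_self]
    · refine wt_le_two 1 k⁻¹ ?_
      intro g h1 h2
      simp [h1, h2]
  exact h.single hm

lemma Good.c0 {A B : Set G} (h : Good A B) : cB B ≠ 0 := by
  intro hc
  have hm : ((Pi.single 1 1, 0) : Pauli G) ∈ stab .sym A B := by
    apply h.mem
    · rw [Syn_z, hc, map_zero]
    · refine wt_le_two 1 1 ?_
      intro g h1 h2
      simp [h1]
  exact h.single hm

lemma Good.yy_mem {A B : Set G} (h : Good A B) {r q : G}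
    (hc : L q (del r (cB B)) = L (q⁻¹ * r⁻¹) (del r (aA A))) :
    ((Pi.single q 1 + Pi.single (q * r) 1, Pi.single q 1 + Pi.single (q * r) 1) : Pauli G) ∈
      stab .sym A B := by
  apply h.mem
  · have : ((Pi.single q 1 + Pi.single (q * r) 1, Pi.single q 1 + Pi.single (q * r) 1) :
        Pauli G) = ((Pi.single q 1, 0) + (Pi.single (q * r) 1, 0)) +
          ((0, Pi.single (q * r) 1) + (0, Pi.single q 1)) := by
      simp only [Prod.mk_add_mk, add_zero, zero_add]
      exact Prod.ext rfl (add_comm _ _)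
    rw [this, map_add, map_add, map_add, Syn_z, Syn_z, Syn_x, Syn_x]
    simp only [del_apply, map_add, L_L, inv_mul_cancel_right] at hc
    rw [hc, mul_inv_rev, mul_comm r⁻¹ q⁻¹, add_self]
  · refine wt_le_two q (q * r) ?_
    intro g h1 h2
    simp [h1, h2]

/-- reflection -/
def refl (q : G) : (G → ZMod 2) →ₗ[ZMod 2] (G → ZMod 2) :=
  LinearMap.funLeft (ZMod 2) (ZMod 2) (fun s => q * q * s⁻¹)

@[simp] lemma refl_apply (q : G) (f : G → ZMod 2) (s : G) : refl q f s = f (q * q * s⁻¹) := rfl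

lemma refl_single (q p : G) : refl q (Pi.single p 1) = Pi.single (q * q * p⁻¹) 1 := by
  ext s
  simp only [refl_apply, Pi.single_apply]
  have : q * q * s⁻¹ = p ↔ s = q * q * p⁻¹ := by
    rw [mul_inv_eq_iff_eq_mul, eq_mul_inv_iff_mul_eq, mul_comm p s]
    exact eq_comm
  simp only [this]

lemma refl_L (q k : G) (f : G → ZMod 2) : refl q (L k f) = L k⁻¹ (refl q f) := by
  ext s
  simp only [refl_apply, L_apply, mul_inv_rev, inv_inv]
  congr 1
  rw [mul_assoc, mul_comm s⁻¹ k]

theorem Good.yyW {A B : Set G} (h : Good A B) {r q : G} (hr : r ≠ 1) (hrr : r * r = 1)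
    (hv : ((Pi.single q 1 + Pi.single (q * r) 1, Pi.single q 1 + Pi.single (q * r) 1) :
      Pauli G) ∈ stab .sym A B) {v : Pauli G} (hvV : v ∈ stab .sym A B) (k : G) :
    ∃ f, v + tau k v = (del r f, refl q (del r f)) := by
  set F : (G → ZMod 2) →ₗ[ZMod 2] Pauli G := LinearMap.prod LinearMap.id (refl q) with hF
  have hFap : ∀ f, F f = (f, refl q f) := fun f => rfl
  have hFinj : Function.Injective F := by
    intro f g hfg
    exact congrArg Prod.fst hfg
  set W := (LinearMap.range (del r)).map F with hW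
  have hWV : W ≤ stab .sym A B := by
    rw [hW, range_del_eq, Submodule.map_span, Submodule.span_le]
    rintro _ ⟨_, ⟨p, rfl⟩, rfl⟩
    have h1 := tau_mem (q * p⁻¹) hv
    have hri : r⁻¹ = r := by
      rw [inv_eq_iff_mul_eq_one]
      exact hrr
    have e1 : q * (q * p⁻¹)⁻¹ = p := by rw [mul_inv_rev, inv_inv, mul_comm p q⁻¹,
      mul_inv_cancel_left]
    have e2 : q * r * (q * p⁻¹)⁻¹ = p * r⁻¹ := by
      rw [mul_assoc, mul_comm r, ← mul_assoc, e1, hri]
    have e3 : q * (q * p⁻¹)⁻¹⁻¹ = q * q * p⁻¹ := by rw [inv_inv, mul_assoc]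
    have e4 : q * r * (q * p⁻¹)⁻¹⁻¹ = q * q * (p * r⁻¹)⁻¹ := by
      rw [inv_inv, mul_inv_rev, inv_inv, mul_assoc, mul_assoc, mul_left_comm r q]
    simp only [tau_apply, map_add, L_single] at h1
    rw [e1, e2, e3, e4] at h1
    change F (del r (Pi.single p 1)) ∈ stab .sym A B
    rw [del_apply, L_single, hFap, map_add, refl_single, refl_single]
    exact h1
  have hτ : ∀ k, ∀ w ∈ W, tau k w ∈ W := by
    rintro k _ ⟨_, ⟨f, rfl⟩, rfl⟩
    refine ⟨L k (del r f), ⟨L k f, (L_del k r f).symm⟩, ?_⟩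
    rw [hFap, hFap, tau_apply, refl_L]
  have hfin : finrank (ZMod 2) (stab .sym A B) ≤ finrank (ZMod 2) W + 1 := by
    apply finrank_stab_le h (orderOf_two hr hrr)
    rw [hW]
    exact le_of_eq (Submodule.equivMapOfInjective _ hFinj _).finrank_eq
  obtain ⟨_, ⟨f, rfl⟩, hf⟩ := add_tau_mem hWV hfin hτ hvV k
  exact ⟨f, hf.symm⟩

lemma const_of_inv {m : G → ZMod 2} (h : ∀ k, L k m = m) (h0 : m ≠ 0) : m = fun _ => 1 := by
  have h1 : ∀ g, m g = m 1 := by
    intro g
    have := congrFun (h g) 1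
    simpa using this
  have h2 : m 1 = 0 ∨ m 1 = 1 := by
    generalize m 1 = t
    revert t
    decide
  ext g
  rw [h1 g]
  rcases h2 with h2 | h2
  · exfalso
    apply h0
    ext g
    rw [h1 g, h2]
    rfl
  · exact h2

theorem Good.yy {A B : Set G} (h : Good A B) {r : G} (q : G) (hr : r ≠ 1) :
    L q (del r (cB B)) ≠ L (q⁻¹ * r⁻¹) (del r (aA A)) := by
  intro hc
  have hv := h.yy_mem hc
  obtain ⟨hrr, h10⟩ := h.pair hr hv
  have hri : r⁻¹ = r := by
    rw [inv_eq_iff_mul_eq_one]
    exact hrr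
  have hdd : ∀ f, del r (del r f) = 0 := by
    intro f
    simp only [del_apply, map_add, L_L, hrr, L_one]
    rw [add_comm (L r f) f, add_self]
  have h1 : ∀ k, ∃ f, check .sym A B 1 + tau k (check .sym A B 1) =
      (del r f, refl q (del r f)) := fun k =>
    h.yyW hr hrr hv (Submodule.subset_span ⟨1, rfl⟩) k
  have hrefl : ∀ f, del r (refl q (del r f)) = 0 := by
    intro f
    have e : L r (refl q (del r f)) = refl q (del r f) := by
      rw [← hri, ← refl_L]
      have : L r⁻¹ (del r⁻¹ f) = del r⁻¹ f := by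
        rw [hri, ← add_eq_zero', add_comm]
        have := hdd f
        rwa [del_apply] at this
      rw [hri] at this ⊢
      rw [this]
    rw [del_apply, e, add_self]
  have hcc : ∀ k, L k (del r (cB B)) = del r (cB B) := by
    intro k
    obtain ⟨f, hf⟩ := h1 k⁻¹
    have h2 := congrArg Prod.snd hf
    rw [check_one] at h2
    simp only [Prod.snd_add, tau_apply, inv_inv] at h2
    have h3 := hrefl f
    rw [← h2, map_add, ← L_del, add_eq_zero'] at h3
    exact h3.symm
  have hca : ∀ k, L k (del r (aA A)) = del r (aA A) := by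
    intro k
    obtain ⟨f, hf⟩ := h1 k⁻¹
    have h2 := congrArg Prod.fst hf
    rw [check_one] at h2
    simp only [Prod.fst_add, tau_apply] at h2
    have h3 := hdd f
    rw [← h2, map_add, ← L_del, add_eq_zero'] at h3
    ext g
    have h4 := congrFun h3 g⁻¹
    simp only [del_apply, L_apply, Pi.add_apply] at h4
    simp only [del_apply, L_apply, Pi.add_apply, aA, mul_inv_rev]
    rw [hri]
    rw [mul_comm g⁻¹ k⁻¹, mul_comm _ r, mul_comm _ r] at h4
    exact h4.symm
  have hcn : del r (cB B) ≠ 0 := by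
    rw [del_apply, Ne, add_eq_zero']
    exact fun e => h.c1 hr e.symm
  have han : del r (aA A) ≠ 0 := by
    rw [del_apply, Ne, add_eq_zero']
    exact fun e => h.c1' hr e.symm
  have hc1 := const_of_inv hcc hcn
  have ha1 := const_of_inv hca han
  have hall : ∀ q' : G, ((Pi.single q' 1 + Pi.single (q' * r) 1,
      Pi.single q' 1 + Pi.single (q' * r) 1) : Pauli G) ∈ stab .sym A B := by
    intro q'
    apply h.yy_mem
    rw [hc1, ha1]
    rfl
  obtain ⟨σ, hσ⟩ := exists_pow_four h10 h.hn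
  obtain ⟨f, hf⟩ := h.yyW (q := 1) hr hrr (hall 1) (hall σ) σ
  have e1 := congrFun (congrArg Prod.fst hf) 1
  have e2 := congrFun (congrArg Prod.snd hf) 1
  have n1 : σ ≠ 1 := by
    rintro rfl
    exact hσ (one_pow 4)
  have n2 : σ * r ≠ 1 := by
    intro e
    apply hσ
    have : σ = r := by rw [← hri]; exact eq_inv_of_mul_eq_one_left e
    rw [this, show 4 = 2 + 2 from rfl, pow_add, pow_two, hrr, one_mul]
  have n3 : σ * σ ≠ 1 := by
    intro e
    apply hσ
    rw [show 4 = 2 + 2 from rfl, pow_add, pow_two, e, one_mul]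
  have n4 : σ * r * σ ≠ 1 := by
    intro e
    apply hσ
    have : σ * σ = r := by
      rw [← hri]
      apply eq_inv_of_mul_eq_one_left
      rw [mul_assoc, mul_comm σ r, ← mul_assoc]
      exact e
    rw [show 4 = 2 + 2 from rfl, pow_add, pow_two, this, hrr]
  simp only [Prod.fst_add, Prod.snd_add, tau_apply, map_add, L_single, inv_inv,
    Pi.add_apply, mul_inv_cancel, Pi.single_apply] at e1 e2
  simp only [refl_apply, mul_one, inv_one] at e2
  rw [← e1] at e2
  have n5 : σ * r * σ⁻¹ ≠ 1 := by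
    rw [mul_comm σ r, mul_inv_cancel_right]
    exact hr
  rw [if_neg n1.symm, if_neg n2.symm, if_neg n3.symm, if_neg n4.symm, if_true,
    if_neg n5.symm] at e2
  revert e2
  decide

end

end Pool.Agent.V11188.MC
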