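import Mathlib

/-!
# Mirror codes

Definitions for `MP_91138c_lc`: Pauli operators up to phase as pairs of vectors over `ZMod 2`
(`Z`-part, `X`-part), the symmetric and asymmetric mirror checks of a triple `(G, A, B)`, their
commutation, and the parameters `[[n, k, d]]`.
-/

namespace Pool.Agent.V11188.MC

open Module

/-- A Pauli operator on the qubits `G`, up to phase: its `Z`-part and its `X`-part. -/
abbrev Pauli (G : Type*) := (G → ZMod 2) × (G → ZMod 2)

open Classical in
/-- The indicator function of a set, with values in `ZMod 2`. -/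
noncomputable def ind {G : Type*} (A : Set G) (g : G) : ZMod 2 := if g ∈ A then 1 else 0

/-- The two kinds of mirror codes. -/
inductive Kind
  | sym
  | asym

variable {G : Type*} [Group G]

/-- The mirror check `S(g) = Z(A g) X(B g⁻¹)` (symmetric) or `Z(A g) X(g⁻¹ B)` (asymmetric):
`q ∈ A g` iff `q g⁻¹ ∈ A`, `q ∈ B g⁻¹` iff `q g ∈ B`, `q ∈ g⁻¹ B` iff `g q ∈ B`. -/
noncomputable def check (κ : Kind) (A B : Set G) (g : G) : Pauli G :=
  (fun q => ind A (q * g⁻¹),
   fun q => match κ with
    | .sym => ind B (q * g)
    | .asym => ind B (g * q))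

/-- The symplectic form: `0` if two Pauli operators commute and `1` otherwise. -/
def symp {G : Type*} [Fintype G] (v w : Pauli G) : ZMod 2 :=
  ∑ q, (v.1 q * w.2 q + v.2 q * w.1 q)

/-- The number of qubits on which a Pauli operator acts nontrivially. -/
noncomputable def wt {G : Type*} (v : Pauli G) : ℕ :=
  Set.ncard {q : G | v.1 q ≠ 0 ∨ v.2 q ≠ 0}

variable [Fintype G]

/-- The checks commute pairwise. -/
def Valid (κ : Kind) (A B : Set G) : Prop :=
  ∀ g h, symp (check κ A B g) (check κ A B h) = 0

/-- The span of the checks. -/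
noncomputable def stab (κ : Kind) (A B : Set G) : Submodule (ZMod 2) (Pauli G) :=
  Submodule.span (ZMod 2) (Set.range (check κ A B))

/-- The number `k` of encoded qubits. -/
noncomputable def numK (κ : Kind) (A B : Set G) : ℕ :=
  Fintype.card G - finrank (ZMod 2) (stab κ A B)

/-- `v` commutes with all checks and is not in their span. -/
def Logical (κ : Kind) (A B : Set G) (v : Pauli G) : Prop :=
  (∀ g, symp v (check κ A B g) = 0) ∧ v ∉ stab κ A B

/-- The distance `d`: the minimum weight of a Pauli operator that commutes with all checks and is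
not in their span (`0` if there is none, that is, if `k = 0`). -/
noncomputable def dist (κ : Kind) (A B : Set G) : ℕ :=
  sInf {w | ∃ v : Pauli G, Logical κ A B v ∧ wt v = w}

/-- `[[n', k', d']]` dominates `[[n, k, d]]`; if `k = 0` the requirement `d ≤ d'` is vacuous. -/
def Dominates (n' k' d' n k d : ℕ) : Prop :=
  n' ≤ n ∧ k ≤ k' ∧ (k = 0 ∨ d ≤ d') ∧ (n' < n ∨ k < k' ∨ d < d')

/-- Q1: every valid mirror code of a finite non-abelian group is dominated by an abelian mirror
code. -/
def MirrorConjecture : Prop :=
  ∀ (G : Type) [Group G] [Fintype G], (∃ a b : G, a * b ≠ b * a) →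
    ∀ (κ : Kind) (A B : Set G), Valid κ A B →
      ∃ (G' : Type) (_ : CommGroup G') (_ : Fintype G') (κ' : Kind) (A' B' : Set G'),
        Dominates (Fintype.card G') (numK κ' A' B') (dist κ' A' B')
          (Fintype.card G) (numK κ A B) (dist κ A B)

end Pool.Agent.V11188.MC
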