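import Pool.Agent.V11188.MC.Lin

/-!
# No mirror code on an abelian group with `n ≤ 12`, `k ≥ 5`, `d ≥ 3`
-/

namespace Pool.Agent.V11188.MC

open Module

variable {G : Type*} [CommGroup G] [Fintype G]

/-- the data of the syndrome space -/
structure Synd (c α : G → ZMod 2) (T : Submodule (ZMod 2) (G → ZMod 2)) : Prop where
  hn : Fintype.card G ≤ 12
  hk : finrank (ZMod 2) T + 5 ≤ Fintype.card G
  hT : Inv T
  hc : c ∈ T
  ha : α ∈ T
  c0 : c ≠ 0
  c1 : ∀ r : G, r ≠ 1 → del r c ≠ 0
  c1' : ∀ r : G, r ≠ 1 → del r α ≠ 0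
  c2 : ∀ k : G, c ≠ L k α
  yy : ∀ r q : G, r ≠ 1 → L q (del r c) ≠ L (q⁻¹ * r⁻¹) (del r α)

variable {c α : G → ZMod 2} {T : Submodule (ZMod 2) (G → ZMod 2)}

lemma Synd.L_inj (h : Synd c α T) {p q : G} (e : L p c = L q c) : p = q := by
  by_contra hpq
  apply h.c1 (p⁻¹ * q) (by rw [Ne, inv_mul_eq_one]; exact hpq)
  rw [del_apply, add_eq_zero', ← L_L, ← e, L_L, inv_mul_cancel, L_one]

lemma Synd.L_inj' (h : Synd c α T) {p q : G} (e : L p α = L q α) : p = q := by
  by_contra hpq
  apply h.c1' (p⁻¹ * q) (by rw [Ne, inv_mul_eq_one]; exact hpq)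
  rw [del_apply, add_eq_zero', ← L_L, ← e, L_L, inv_mul_cancel, L_one]

lemma L_ne_zero {f : G → ZMod 2} (hf : f ≠ 0) (q : G) : L q f ≠ 0 := by
  intro h
  apply hf
  have h5 := congrArg (L q⁻¹) h
  rwa [L_L, inv_mul_cancel, L_one, map_zero] at h5

lemma Synd.a0 (h : Synd c α T) : α ≠ 0 := by
  intro h0
  have h1 : 5 ≤ Fintype.card G := le_trans (Nat.le_add_left _ _) h.hk
  haveI : Nontrivial G := Fintype.one_lt_card_iff_nontrivial.1 (by omega)
  obtain ⟨r, hr⟩ := exists_ne (1 : G)
  apply h.c1' r hr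
  rw [h0, map_zero]

/-- `n ≤ 9` is impossible -/
lemma Synd.ge_ten (h : Synd c α T) : 10 ≤ Fintype.card G := by
  classical
  by_contra hlt
  push Not at hlt
  haveI : Fintype T := Fintype.ofFinite _
  let F : Option (G ⊕ G) → T := fun x => match x with
    | none => 0
    | some (Sum.inl q) => ⟨L q c, h.hT q c h.hc⟩
    | some (Sum.inr q) => ⟨L q α, h.hT q α h.ha⟩
  have hF : Function.Injective F := by
    intro x y hxy
    rcases x with _ | x | x <;> rcases y with _ | y | y
    · rfl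
    · exact absurd (congrArg Subtype.val hxy).symm (L_ne_zero h.c0 y)
    · exact absurd (congrArg Subtype.val hxy).symm (L_ne_zero h.a0 y)
    · exact absurd (congrArg Subtype.val hxy) (L_ne_zero h.c0 x)
    · rw [h.L_inj (congrArg Subtype.val hxy)]
    · exfalso
      apply h.c2 (x⁻¹ * y)
      have e : L x c = L y α := congrArg Subtype.val hxy
      rw [← L_L, ← e, L_L, inv_mul_cancel, L_one]
    · exact absurd (congrArg Subtype.val hxy) (L_ne_zero h.a0 x)
    · exfalso
      apply h.c2 (y⁻¹ * x)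
      have e : L x α = L y c := congrArg Subtype.val hxy
      rw [← L_L, e, L_L, inv_mul_cancel, L_one]
    · rw [h.L_inj' (congrArg Subtype.val hxy)]
  have h1 := Fintype.card_le_of_injective F hF
  rw [Fintype.card_option, Fintype.card_sum, Module.card_eq_pow_finrank (K := ZMod 2) (V := T),
    ZMod.card] at h1
  have h2 := h.hk
  have h3 : 2 ^ finrank (ZMod 2) T ≤ 2 ^ (Fintype.card G - 5) :=
    Nat.pow_le_pow_right (by norm_num) (by omega)
  have h4 := h1.trans h3
  have h5 : 5 ≤ Fintype.card G := by omega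
  generalize Fintype.card G = n at *
  interval_cases n <;> omega

lemma exists_order {p : ℕ} (hp : p.Prime) (hd : p ∣ Fintype.card G) :
    ∃ σ : G, orderOf σ = p := by
  haveI := Fact.mk hp
  exact exists_prime_orderOf_dvd_card p hd

/-- `n = 11` is impossible -/
lemma Synd.ne_eleven (h : Synd c α T) : Fintype.card G ≠ 11 := by
  intro h11
  obtain ⟨σ, hσ⟩ := exists_order (G := G) (p := 11) (by norm_num) (by rw [h11])
  have h1 := fp (p := 11) (by norm_num) (by rw [← hσ]; exact pow_orderOf_eq_one σ) h.hT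
  have h2 := finrank_ker_del σ
  rw [hσ, h11] at h2
  have h3 := h.hk
  rw [h11] at h3
  have h4 : finrank (ZMod 2) (T ⊓ LinearMap.ker (del σ) : Submodule (ZMod 2) (G → ZMod 2)) ≤
      finrank (ZMod 2) (LinearMap.ker (del σ)) := Submodule.finrank_mono inf_le_right
  have h5 : finrank (ZMod 2) (T ⊓ LinearMap.ker (del σ) : Submodule (ZMod 2) (G → ZMod 2)) =
      finrank (ZMod 2) T := by
    have h6 : finrank (ZMod 2) (T ⊓ LinearMap.ker (del σ) : Submodule (ZMod 2) (G → ZMod 2)) ≤ 1 :=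
      by omega
    have h7 : finrank (ZMod 2) T ≤ 6 := by omega
    generalize finrank (ZMod 2) (T ⊓ LinearMap.ker (del σ) : Submodule (ZMod 2) (G → ZMod 2))
      = j at *
    generalize finrank (ZMod 2) T = m at *
    interval_cases j <;> interval_cases m <;> first | rfl | (exfalso; revert h1; decide)
  have h6 : T ⊓ LinearMap.ker (del σ) = T :=
    Submodule.eq_of_le_of_finrank_eq inf_le_left h5
  have h7 : c ∈ T ⊓ LinearMap.ker (del σ) := by rw [h6]; exact h.hc
  have hσ1 : σ ≠ 1 := by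
    intro e
    rw [e, orderOf_one] at hσ
    omega
  exact h.c1 σ hσ1 h7.2

/-- the images under `1 + r`, `r` an involution -/
lemma Synd.ne (h : Synd c α T) {r : G} (hr : r ≠ 1) (hrr : r * r = 1) (q : G) :
    del r c ≠ L (q * q) (del r α) := by
  intro e
  apply h.yy r q⁻¹ hr
  have e1 : L r⁻¹ (del r α) = del r α := by
    have hri : r⁻¹ = r := by
      rw [inv_eq_iff_mul_eq_one]
      exact hrr
    rw [hri]
    have := del_del hrr α
    rw [del_apply, add_eq_zero'] at this
    exact this.symm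
  rw [e, L_L, inv_inv, ← L_L q r⁻¹, e1, inv_mul_cancel_left]

lemma Synd.big (h : Synd c α T) {r : G} (hr : r ≠ 1) (hrr : r * r = 1) :
    2 ≤ finrank (ZMod 2) (T.map (del r)) := by
  by_contra hc
  push Not at hc
  apply h.ne hr hrr 1
  rw [mul_one, L_one]
  exact eq_of_finrank_one (U := T.map (del r)) (by omega) ⟨c, h.hc, rfl⟩ ⟨α, h.ha, rfl⟩ (h.c1 r hr) (h.c1' r hr)

/-- `n = 10` is impossible -/
lemma Synd.ne_ten (h : Synd c α T) : Fintype.card G ≠ 10 := by
  intro h10
  obtain ⟨r, hr⟩ := exists_order (G := G) (p := 2) (by norm_num) (by rw [h10]; norm_num)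
  obtain ⟨σ, hσ⟩ := exists_order (G := G) (p := 5) (by norm_num) (by rw [h10]; norm_num)
  have hr1 : r ≠ 1 := by
    intro e
    rw [e, orderOf_one] at hr
    omega
  have hrr : r * r = 1 := by
    rw [← pow_two, ← hr]
    exact pow_orderOf_eq_one r
  have h1 := h.big hr1 hrr
  have h2 := h.hT.half hrr
  have h3 := h.hk
  rw [h10] at h3
  have h4 := fp (p := 5) (by norm_num) (by rw [← hσ]; exact pow_orderOf_eq_one σ) (h.hT.map r)
  have h5 : orderOf (r * σ) = 10 := by
    rw [(Commute.all r σ).orderOf_mul_eq_mul_orderOf_of_coprime (by rw [hr, hσ]; norm_num), hr, hσ]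
  have h6 := finrank_ker_del (r * σ)
  rw [h5, h10] at h6
  have h7 : finrank (ZMod 2)
      (T.map (del r) ⊓ LinearMap.ker (del σ) : Submodule (ZMod 2) (G → ZMod 2)) ≤
      finrank (ZMod 2) (LinearMap.ker (del (r * σ))) := by
    apply Submodule.finrank_mono
    rintro _ ⟨⟨f, hf, rfl⟩, hf'⟩
    rw [mem_ker_del]
    have e1 : L r (del r f) = del r f := by
      have := del_del hrr f
      rw [del_apply, add_eq_zero'] at this
      exact this.symm
    rw [mul_comm r σ, ← L_L, e1]
    exact mem_ker_del.1 hf'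
  generalize finrank (ZMod 2)
      (T.map (del r) ⊓ LinearMap.ker (del σ) : Submodule (ZMod 2) (G → ZMod 2)) = j at *
  have h8 : finrank (ZMod 2) (T.map (del r)) = 2 := by omega
  rw [h8] at h4
  have h9 : j ≤ 1 := by omega
  interval_cases j <;> (revert h4; decide)

section twelve

variable {r σ : G}

/-- not in one orbit of an element of order 3 -/
lemma Synd.ne3 (h : Synd c α T) (hr : r ≠ 1) (hrr : r * r = 1) (h3 : σ * σ * σ = 1)
    (e : del r α = del r c ∨ del r α = L σ (del r c) ∨ del r α = L (σ * σ) (del r c)) :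
    False := by
  rcases e with e | e | e
  · apply h.ne hr hrr 1
    rw [mul_one, L_one, e]
  · apply h.ne hr hrr σ
    rw [e, L_L, h3, L_one]
  · apply h.ne hr hrr (σ * σ)
    rw [e, L_L]
    have : σ * σ * (σ * σ) * (σ * σ) = (σ * σ * σ) * (σ * σ * σ) := by group
    rw [this, h3, mul_one, L_one]

/-- `(1 + σ) T` has dimension at least 3 -/
lemma Synd.three (h : Synd c α T) (hσ : σ ≠ 1) (h3 : σ * σ * σ = 1) :
    3 ≤ finrank (ZMod 2) (T.map (del σ)) := by
  by_contra hc
  push Not at hc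
  have hn : ∀ f ∈ T.map (del σ), nrm σ f = 0 := by
    rintro _ ⟨f, -, rfl⟩
    exact nrm_self h3 f
  have h1 := orbit h3 (h.hT.map σ) hn (by omega) (f := del σ c) (g := del σ α)
    ⟨c, h.hc, rfl⟩ ⟨α, h.ha, rfl⟩ (h.c1 σ hσ) (h.c1' σ hσ)
  have hi : σ⁻¹ = σ * σ := by
    rw [inv_eq_iff_mul_eq_one, ← mul_assoc]
    exact h3
  rcases h1 with e | e | e
  · apply h.yy σ σ hσ
    rw [e, hi]
    congr 2
    have : σ * σ * (σ * σ) = σ * σ * σ * σ := by group
    rw [this, h3, one_mul]
  · apply h.yy σ 1 hσ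
    rw [e, inv_one, one_mul, L_L, inv_mul_cancel, L_one]
  · apply h.yy σ (σ * σ) hσ
    rw [e, L_L]
    congr 2
    rw [mul_inv_rev, hi]
    have : σ * σ * (σ * σ) * (σ * σ) * (σ * σ) = σ * σ * σ * (σ * σ * σ) * (σ * σ) := by group
    rw [this, h3, one_mul, one_mul]

end twelve

end Pool.Agent.V11188.MC
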