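import Pool.Agent.V11188.MC.Basic

/-!
# Mirror codes on abelian groups of order at most 12 with `k ≥ 5`, `d ≥ 3`: first consequences
-/

namespace Pool.Agent.V11188.MC

open Module

variable {G : Type*} [CommGroup G] [Fintype G]

lemma check_kind (κ : Kind) (A B : Set G) : check κ A B = check .sym A B := by
  funext g
  cases κ with
  | sym => rfl
  | asym =>
    unfold check
    simp only [mul_comm]

/-- translation of Pauli operators -/
def tau (h : G) : Pauli G →ₗ[ZMod 2] Pauli G := LinearMap.prodMap (L h) (L h⁻¹)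

@[simp] lemma tau_apply (h : G) (v : Pauli G) : tau h v = (L h v.1, L h⁻¹ v.2) := rfl

lemma tau_check (A B : Set G) (h g : G) :
    tau h (check .sym A B g) = check .sym A B (g * h⁻¹) := by
  unfold check
  simp only [tau_apply, Prod.mk.injEq]
  constructor
  · ext q
    simp only [L_apply]
    congr 1
    rw [mul_inv_rev, inv_inv, mul_assoc]
  · ext q
    simp only [L_apply]
    congr 1
    rw [mul_assoc, mul_comm h⁻¹ g]

lemma tau_mem {A B : Set G} (h : G) {v : Pauli G} (hv : v ∈ stab .sym A B) :
    tau h v ∈ stab .sym A B := by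
  have : stab .sym A B ≤ (stab .sym A B).comap (tau h) := by
    unfold stab
    rw [Submodule.span_le]
    rintro _ ⟨g, rfl⟩
    simp only [Submodule.comap_coe, Set.mem_preimage, SetLike.mem_coe]
    rw [tau_check]
    exact Submodule.subset_span ⟨_, rfl⟩
  exact this hv

/-- the hypotheses: at most 12 qubits, `k ≥ 5`, `d ≥ 3` -/
structure Good (A B : Set G) : Prop where
  hn : Fintype.card G ≤ 12
  hk : finrank (ZMod 2) (stab .sym A B) + 5 ≤ Fintype.card G
  hd : ∀ v : Pauli G, (∀ g, symp v (check .sym A B g) = 0) → wt v ≤ 2 → v ∈ stab .sym A B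

/-- exchange of `X` and `Z` -/
def swp : Pauli G ≃ₗ[ZMod 2] Pauli G := LinearEquiv.prodComm (ZMod 2) _ _

@[simp] lemma swp_apply (v : Pauli G) : swp v = (v.2, v.1) := rfl

lemma swp_check (A B : Set G) (g : G) : swp (check .sym A B g) = check .sym B A g⁻¹ := by
  unfold check
  simp only [swp_apply, inv_inv]

lemma map_swp (A B : Set G) :
    (stab .sym A B).map (swp (G := G)).toLinearMap = stab .sym B A := by
  unfold stab
  rw [Submodule.map_span]
  congr 1
  ext v
  constructor
  · rintro ⟨_, ⟨g, rfl⟩, rfl⟩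
    exact ⟨g⁻¹, (swp_check A B g).symm⟩
  · rintro ⟨g, rfl⟩
    refine ⟨_, ⟨g⁻¹, rfl⟩, ?_⟩
    have := swp_check A B g⁻¹
    rw [inv_inv] at this
    exact this

lemma symp_swp (v w : Pauli G) : symp (swp v) (swp w) = symp v w := by
  unfold symp
  refine Finset.sum_congr rfl fun q _ => ?_
  simp only [swp_apply]
  ring

lemma wt_swp (v : Pauli G) : wt (swp v) = wt v := by
  unfold wt
  congr 1
  ext q
  simp only [swp_apply, Set.mem_setOf_eq]
  exact or_comm

lemma Good.swap {A B : Set G} (h : Good A B) : Good B A where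
  hn := h.hn
  hk := by
    rw [← map_swp, LinearEquiv.finrank_map_eq]
    exact h.hk
  hd := by
    intro v hv hw
    have h1 := h.hd (swp v) (fun g => by
      have := hv g⁻¹
      rw [← symp_swp, swp_check, inv_inv] at this
      exact this) (by rw [wt_swp]; exact hw)
    rw [← map_swp]
    exact ⟨swp v, h1, rfl⟩

lemma fst_inv {A B : Set G} (h : G) (f : G → ZMod 2)
    (hf : f ∈ (stab .sym A B).map (LinearMap.fst (ZMod 2) _ _)) :
    L h f ∈ (stab .sym A B).map (LinearMap.fst (ZMod 2) _ _) := by
  obtain ⟨v, hv, rfl⟩ := hf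
  exact ⟨tau h v, tau_mem h hv, rfl⟩

lemma snd_inv {A B : Set G} (h : G) (f : G → ZMod 2)
    (hf : f ∈ (stab .sym A B).map (LinearMap.snd (ZMod 2) _ _)) :
    L h f ∈ (stab .sym A B).map (LinearMap.snd (ZMod 2) _ _) := by
  obtain ⟨v, hv, rfl⟩ := hf
  refine ⟨tau h⁻¹ v, tau_mem _ hv, ?_⟩
  simp

lemma wt_le_two {v : Pauli G} (p q : G) (h : ∀ g, g ≠ p → g ≠ q → v.1 g = 0 ∧ v.2 g = 0) :
    wt v ≤ 2 := by
  unfold wt
  calc Set.ncard {g : G | v.1 g ≠ 0 ∨ v.2 g ≠ 0} ≤ Set.ncard ({p, q} : Set G) := by
        apply Set.ncard_le_ncard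
        · intro g hg
          by_contra hc
          simp only [Set.mem_insert_iff, Set.mem_singleton_iff, not_or] at hc
          obtain ⟨h1, h2⟩ := h g hc.1 hc.2
          rcases hg with hg | hg
          · exact hg h1
          · exact hg h2
        · exact Set.toFinite _
    _ ≤ 2 := by
        refine (Set.ncard_insert_le p {q}).trans ?_
        rw [Set.ncard_singleton]

/-- the function `c` -/
noncomputable def cB (B : Set G) : G → ZMod 2 := fun g => ind B g

/-- the function `α` -/
noncomputable def aA (A : Set G) : G → ZMod 2 := fun g => ind A g⁻¹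

open Classical in
lemma syn (A B : Set G) (z x : G → ZMod 2) (g : G) :
    symp (z, x) (check .sym A B g) =
      ∑ q, (z q * L q (cB B) g + x q * L q⁻¹ (aA A) g) := by
  unfold symp check cB aA
  refine Finset.sum_congr rfl fun q _ => ?_
  simp only [L_apply]
  rw [mul_comm q g, mul_inv_rev, inv_inv]

end Pool.Agent.V11188.MC
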