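import Pool.Agent.V11188.MC.Cons

/-!
# Mirror codes on abelian groups: invariant subspaces
-/

namespace Pool.Agent.V11188.MC

open Module

section

variable {M N : Type*} [AddCommGroup M] [Module (ZMod 2) M] [FiniteDimensional (ZMod 2) M]
  [AddCommGroup N] [Module (ZMod 2) N]

lemma rn (f : M →ₗ[ZMod 2] N) (U : Submodule (ZMod 2) M) :
    finrank (ZMod 2) (U.map f) + finrank (ZMod 2) (U ⊓ LinearMap.ker f : Submodule (ZMod 2) M) =
      finrank (ZMod 2) U := by
  have h := LinearMap.finrank_range_add_finrank_ker (f.domRestrict U)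
  have h1 : LinearMap.range (f.domRestrict U) = U.map f := by
    ext x
    simp [LinearMap.mem_range]
  have h2 : finrank (ZMod 2) (LinearMap.ker (f.domRestrict U)) =
      finrank (ZMod 2) (U ⊓ LinearMap.ker f : Submodule (ZMod 2) M) := by
    have h3 : (LinearMap.ker (f.domRestrict U)).map U.subtype = U ⊓ LinearMap.ker f := by
      ext x
      simp only [Submodule.mem_map, LinearMap.mem_ker, LinearMap.domRestrict_apply,
        Submodule.coe_subtype, Submodule.mem_inf]
      constructor
      · rintro ⟨y, hy, rfl⟩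
        exact ⟨y.2, hy⟩
      · rintro ⟨hx, hx'⟩
        exact ⟨⟨x, hx⟩, hx', rfl⟩
    rw [← h3]
    exact (Submodule.equivMapOfInjective _ U.injective_subtype _).finrank_eq
  rw [← h, h1, h2]

lemma eq_of_finrank_one {U : Submodule (ZMod 2) M} (hU : finrank (ZMod 2) U ≤ 1) {f g : M}
    (hf : f ∈ U) (hg : g ∈ U) (hf0 : f ≠ 0) (hg0 : g ≠ 0) : f = g := by
  have h := add_mem_of_finrank (W := ⊥) (V := U) bot_le (by simpa using hU) hf hg
    (by simpa using hf0) (by simpa using hg0)
  rw [Submodule.mem_bot] at h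
  have h2 : f + g + g = g := by rw [h, zero_add]
  rwa [add_assoc, ZModModule.add_self, add_zero] at h2

end

variable {G : Type*} [CommGroup G] [Fintype G]

/-- invariance under translations -/
def Inv (U : Submodule (ZMod 2) (G → ZMod 2)) : Prop := ∀ k, ∀ f ∈ U, L k f ∈ U

lemma Inv.map {U : Submodule (ZMod 2) (G → ZMod 2)} (hU : Inv U) (r : G) :
    Inv (U.map (del r)) := by
  rintro k _ ⟨f, hf, rfl⟩
  exact ⟨L k f, hU k f hf, (L_del k r f).symm⟩

lemma Inv.map_le {U : Submodule (ZMod 2) (G → ZMod 2)} (hU : Inv U) (r : G) :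
    U.map (del r) ≤ U := by
  rintro _ ⟨f, hf, rfl⟩
  exact U.add_mem hf (hU r f hf)

lemma Inv.ker {U : Submodule (ZMod 2) (G → ZMod 2)} (hU : Inv U) (r : G) :
    Inv (U ⊓ LinearMap.ker (del r)) := by
  rintro k f ⟨hf, hf'⟩
  refine ⟨hU k f hf, ?_⟩
  simp only [SetLike.mem_coe, LinearMap.mem_ker] at hf' ⊢
  rw [← L_del, hf', map_zero]

lemma del_del {r : G} (hrr : r * r = 1) (f : G → ZMod 2) : del r (del r f) = 0 := by
  simp only [del_apply, map_add, L_L, hrr, L_one]
  rw [add_comm (L r f) f, add_self]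

/-- rank of `(1 + r) U` for an involution `r` -/
lemma Inv.half {U : Submodule (ZMod 2) (G → ZMod 2)} (hU : Inv U) {r : G} (hrr : r * r = 1) :
    2 * finrank (ZMod 2) (U.map (del r)) ≤ finrank (ZMod 2) U := by
  have h := rn (del r) U
  have h2 : finrank (ZMod 2) (U.map (del r)) ≤
      finrank (ZMod 2) (U ⊓ LinearMap.ker (del r) : Submodule (ZMod 2) (G → ZMod 2)) := by
    apply Submodule.finrank_mono
    refine le_inf (hU.map_le r) ?_
    rintro _ ⟨f, -, rfl⟩
    exact del_del hrr f
  omega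

lemma pow_L (σ : G) (n : ℕ) (f : G → ZMod 2) : (L σ)^[n] f = L (σ ^ n) f := by
  induction n with
  | zero => simp
  | succ n ih => rw [Function.iterate_succ_apply', ih, L_L, pow_succ']

/-- counting fixed points of an element of prime order -/
lemma fp {p : ℕ} (hp : p.Prime) {σ : G} (hσ : σ ^ p = 1)
    {U : Submodule (ZMod 2) (G → ZMod 2)} (hU : Inv U) :
    2 ^ finrank (ZMod 2) U ≡
      2 ^ finrank (ZMod 2) (U ⊓ LinearMap.ker (del σ) : Submodule (ZMod 2) (G → ZMod 2))
        [MOD p] := by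
  classical
  haveI := Fact.mk hp
  haveI : Fintype U := Fintype.ofFinite _
  let f : Function.End U := fun u => ⟨L σ u, hU σ u u.2⟩
  have hf : ∀ n : ℕ, ∀ u : U, ((f ^ n : Function.End U) u : G → ZMod 2) = L (σ ^ n) u := by
    intro n
    induction n with
    | zero =>
      intro u
      rw [pow_zero, pow_zero, L_one]
      rfl
    | succ n ih =>
      intro u
      rw [pow_succ']
      change L σ ((f ^ n : Function.End U) u : G → ZMod 2) = _
      rw [ih, L_L, pow_succ']
  have h1 : f ^ p ^ 1 = 1 := by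
    funext u
    apply Subtype.ext
    rw [hf, pow_one, hσ, L_one]
    rfl
  have h2 := Equiv.Perm.card_fixedPoints_modEq h1
  have e : (Function.fixedPoints f) ≃
      (U ⊓ LinearMap.ker (del σ) : Submodule (ZMod 2) (G → ZMod 2)) :=
    { toFun := fun u => ⟨u.1.1, u.1.2, by
        have h3 : f u.1 = u.1 := u.2
        have h4 := congrArg Subtype.val h3
        exact mem_ker_del.2 h4⟩
      invFun := fun v => ⟨⟨v.1, v.2.1⟩, by
        apply Subtype.ext
        exact mem_ker_del.1 v.2.2⟩
      left_inv := fun u => rfl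
      right_inv := fun v => rfl }
  haveI : Fintype (U ⊓ LinearMap.ker (del σ) : Submodule (ZMod 2) (G → ZMod 2)) :=
    Fintype.ofFinite _
  have e1 : Fintype.card U = 2 ^ finrank (ZMod 2) U := by
    rw [Module.card_eq_pow_finrank (K := ZMod 2), ZMod.card]
  have e2 : Fintype.card (Function.fixedPoints f) =
      2 ^ finrank (ZMod 2) (U ⊓ LinearMap.ker (del σ) : Submodule (ZMod 2) (G → ZMod 2)) := by
    rw [Fintype.card_congr e, Module.card_eq_pow_finrank (K := ZMod 2), ZMod.card]
  rw [← e1, ← e2]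
  exact h2

/-- the norm for an element of order 3 -/
def nrm (σ : G) : (G → ZMod 2) →ₗ[ZMod 2] (G → ZMod 2) := LinearMap.id + L σ + L (σ * σ)

lemma nrm_apply (σ : G) (f : G → ZMod 2) : nrm σ f = f + L σ f + L (σ * σ) f := rfl

lemma nrm_del (σ r : G) (f : G → ZMod 2) : nrm σ (del r f) = del r (nrm σ f) := by
  simp only [nrm_apply, map_add, L_del]

lemma nrm_fixed {σ : G} {f : G → ZMod 2} (hf : L σ f = f) : nrm σ f = f := by
  rw [nrm_apply, ← L_L, hf, hf, add_self, zero_add]

lemma nrm_self {σ : G} (h3 : σ * σ * σ = 1) (f : G → ZMod 2) : nrm σ (del σ f) = 0 := by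
  simp only [nrm_apply, del_apply, map_add, L_L, h3, L_one]
  have : f + L σ f + L (σ * σ) f + (L σ f + L (σ * σ) f + f) =
      (f + f) + (L σ f + L σ f) + (L (σ * σ) f + L (σ * σ) f) := by abel
  simp only [this, add_self, add_zero]

lemma L_nrm {σ : G} (h3 : σ * σ * σ = 1) (f : G → ZMod 2) : L σ (nrm σ f) = nrm σ f := by
  have h := nrm_self h3 f
  rw [nrm_del, del_apply, add_eq_zero'] at h
  exact h.symm

/-- decomposition -/
lemma decomp (σ : G) (f : G → ZMod 2) : f = nrm σ f + L σ (del σ f) := by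
  rw [nrm_apply, del_apply, map_add, L_L]
  have : f + L σ f + L (σ * σ) f + (L σ f + L (σ * σ) f) =
      f + (L σ f + L σ f) + (L (σ * σ) f + L (σ * σ) f) := by abel
  rw [this, add_self, add_self, add_zero, add_zero]

/-- subspaces without fixed vectors have even dimension -/
lemma even_of_nrm {σ : G} (h3 : σ * σ * σ = 1) {U : Submodule (ZMod 2) (G → ZMod 2)}
    (hU : Inv U) (hn : ∀ f ∈ U, nrm σ f = 0) : Even (finrank (ZMod 2) U) := by
  have h := fp Nat.prime_three (σ := σ) (by rw [pow_succ, pow_two]; exact h3) hU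
  have h0 : U ⊓ LinearMap.ker (del σ) = ⊥ := by
    rw [eq_bot_iff]
    rintro f ⟨hf, hf'⟩
    have h1 := nrm_fixed (mem_ker_del.1 hf')
    rw [hn f hf] at h1
    exact h1.symm
  rw [h0, finrank_bot, pow_zero] at h
  by_contra hc
  rw [Nat.not_even_iff_odd] at hc
  obtain ⟨k, hk⟩ := hc
  rw [hk, pow_succ, pow_mul] at h
  have h4 : (2 ^ 2) ^ k * 2 ≡ 1 ^ k * 2 [MOD 3] := (Nat.ModEq.pow k (by decide)).mul_right 2
  have h5 := h4.symm.trans h
  rw [one_pow, one_mul] at h5
  exact absurd h5 (by decide)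

/-- in a plane without fixed vectors the element of order 3 is transitive on nonzero vectors -/
lemma orbit {σ : G} (h3 : σ * σ * σ = 1) {U : Submodule (ZMod 2) (G → ZMod 2)}
    (hU : Inv U) (hn : ∀ f ∈ U, nrm σ f = 0) (h2 : finrank (ZMod 2) U ≤ 2)
    {f g : G → ZMod 2} (hf : f ∈ U) (hg : g ∈ U) (hf0 : f ≠ 0) (hg0 : g ≠ 0) :
    g = f ∨ g = L σ f ∨ g = L (σ * σ) f := by
  have hsf : ∀ x : G → ZMod 2, x ∈ Submodule.span (ZMod 2) {f} → x = 0 ∨ x = f := by
    intro x hx
    obtain ⟨t, rfl⟩ := Submodule.mem_span_singleton.1 hx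
    have ht : ∀ t : ZMod 2, t = 0 ∨ t = 1 := by decide
    rcases ht t with rfl | rfl
    · left; exact zero_smul _ _
    · right; exact one_smul _ _
  have hLf0 : L σ f ≠ 0 := by
    intro h
    apply hf0
    have h5 := congrArg (L σ⁻¹) h
    rwa [L_L, inv_mul_cancel, L_one, map_zero] at h5
  have hσf : L σ f ∉ Submodule.span (ZMod 2) {f} := by
    intro h
    rcases hsf _ h with h | h
    · exact hLf0 h
    · have h1 := nrm_fixed h
      rw [hn f hf] at h1
      exact hf0 h1.symm
  by_cases hgs : g ∈ Submodule.span (ZMod 2) {f}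
  · rcases hsf _ hgs with h | h
    · exact absurd h hg0
    · exact Or.inl h
  · have h4 := add_mem_of_finrank (W := Submodule.span (ZMod 2) {f}) (V := U)
      ((Submodule.span_singleton_le_iff_mem _ _).2 hf)
      (by rw [finrank_span_singleton hf0]; exact h2) (hU σ f hf) hg hσf hgs
    rcases hsf _ h4 with h | h
    · exact Or.inr (Or.inl (add_eq_zero'.1 h).symm)
    · right; right
      have h6 := hn f hf
      rw [nrm_apply, add_eq_zero'] at h6
      rw [← h6]
      have h7 : L σ f + (L σ f + g) = L σ f + f := by rw [h]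
      rw [← add_assoc, add_self, zero_add] at h7
      rw [h7, add_comm]

end Pool.Agent.V11188.MC
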