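import Pool.Agent.V11188.MC.Twelve

/-!
# Abelian mirror codes with `n ≤ 12` and `k ≥ 5` have distance at most 2
-/

namespace Pool.Agent.V11188.MC

open Module

variable {G : Type*} [CommGroup G] [Fintype G]

/-- the span of the translates of the two functions -/
noncomputable def synT (A B : Set G) : Submodule (ZMod 2) (G → ZMod 2) :=
  Submodule.span (ZMod 2) (Set.range (fun q => L q (cB B)) ∪ Set.range (fun q => L q (aA A)))

lemma synT_inv (A B : Set G) : Inv (synT A B) := by
  intro k
  have : synT A B ≤ (synT A B).comap (L k) := by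
    unfold synT
    rw [Submodule.span_le]
    rintro _ (⟨q, rfl⟩ | ⟨q, rfl⟩)
    · simp only [Submodule.comap_coe, Set.mem_preimage, SetLike.mem_coe, L_L]
      exact Submodule.subset_span (Or.inl ⟨_, rfl⟩)
    · simp only [Submodule.comap_coe, Set.mem_preimage, SetLike.mem_coe, L_L]
      exact Submodule.subset_span (Or.inr ⟨_, rfl⟩)
  exact fun f hf => this hf

/-- the check matrix -/
noncomputable def checkMat (A B : Set G) : Matrix G (G ⊕ G) (ZMod 2) :=
  fun g => Sum.elim (check .sym A B g).1 (check .sym A B g).2

lemma finrank_synT_le (A B : Set G) :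
    finrank (ZMod 2) (synT A B) ≤ finrank (ZMod 2) (stab .sym A B) := by
  classical
  have h1 : finrank (ZMod 2) (stab .sym A B) = (checkMat A B).rank := by
    rw [Matrix.rank_eq_finrank_span_row]
    let e := LinearEquiv.sumArrowLequivProdArrow G G (ZMod 2) (ZMod 2)
    have h2 : (Submodule.span (ZMod 2) (Set.range (checkMat A B).row)).map e.toLinearMap =
        stab .sym A B := by
      unfold stab
      rw [Submodule.map_span, ← Set.range_comp]
      congr 1
    rw [← h2, LinearEquiv.finrank_map_eq]
  rw [h1, Matrix.rank_eq_finrank_span_cols]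
  apply Submodule.finrank_mono
  unfold synT
  rw [Submodule.span_le]
  rintro _ (⟨q, rfl⟩ | ⟨q, rfl⟩)
  · apply Submodule.subset_span
    refine ⟨Sum.inr q, ?_⟩
    ext g
    simp only [checkMat, Matrix.col, Matrix.transpose_apply, Sum.elim_inr, check, L_apply, cB]
    rw [mul_comm]
  · apply Submodule.subset_span
    refine ⟨Sum.inl q⁻¹, ?_⟩
    ext g
    simp only [checkMat, Matrix.col, Matrix.transpose_apply, Sum.elim_inl, check, L_apply, aA]
    rw [mul_inv_rev]

theorem Good.synd {A B : Set G} (h : Good A B) : Synd (cB B) (aA A) (synT A B) where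
  hn := h.hn
  hk := le_trans (Nat.add_le_add_right (finrank_synT_le A B) 5) h.hk
  hT := synT_inv A B
  hc := by
    apply Submodule.subset_span
    exact Or.inl ⟨1, L_one _⟩
  ha := by
    apply Submodule.subset_span
    exact Or.inr ⟨1, L_one _⟩
  c0 := h.c0
  c1 := by
    intro r hr
    rw [del_apply, Ne, add_eq_zero']
    exact fun e => h.c1 hr e.symm
  c1' := by
    intro r hr
    rw [del_apply, Ne, add_eq_zero']
    exact fun e => h.c1' hr e.symm
  c2 := h.c2
  yy := fun r q hr => h.yy q hr

/-- **Abelian mirror codes with `n ≤ 12` and `k ≥ 5` have distance at most 2.** -/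
theorem abelian_dist_lt (κ : Kind) (A B : Set G) (hn : Fintype.card G ≤ 12)
    (hk : 5 ≤ numK κ A B) : dist κ A B < 3 := by
  by_contra hd
  push Not at hd
  have e : check κ A B = check .sym A B := check_kind κ A B
  have es : stab κ A B = stab .sym A B := by unfold stab; rw [e]
  have hg : Good A B := by
    refine ⟨hn, ?_, ?_⟩
    · unfold numK at hk
      rw [es] at hk
      omega
    · intro v hv hw
      by_contra hc
      have h1 : dist κ A B ≤ wt v := by
        unfold dist
        apply Nat.sInf_le
        refine ⟨v, ⟨?_, ?_⟩, rfl⟩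
        · rw [e]
          exact hv
        · rw [es]
          exact hc
      omega
  exact hg.synd.false

end Pool.Agent.V11188.MC
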