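import Pool.Agent.V11188.MC.Fin

/-!
# No mirror code on an abelian group of order 12 with `k ≥ 5`, `d ≥ 3`
-/

namespace Pool.Agent.V11188.MC

open Module

variable {G : Type*} [CommGroup G] [Fintype G]

lemma del_comm (r s : G) (f : G → ZMod 2) : del s (del r f) = del r (del s f) := by
  rw [del_apply s (del r f), L_del, ← map_add, ← del_apply]

lemma map_comm (U : Submodule (ZMod 2) (G → ZMod 2)) (r s : G) :
    (U.map (del r)).map (del s) = (U.map (del s)).map (del r) := by
  rw [← Submodule.map_comp, ← Submodule.map_comp]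
  congr 1
  ext1 f
  ext1 g
  simp only [LinearMap.comp_apply]
  rw [del_comm]

variable {c α : G → ZMod 2} {T : Submodule (ZMod 2) (G → ZMod 2)} {r s σ : G}

lemma nrm_mem {U : Submodule (ZMod 2) (G → ZMod 2)} (hU : Inv U) {f : G → ZMod 2}
    (hf : f ∈ U) : nrm σ f ∈ U :=
  U.add_mem (U.add_mem hf (hU _ _ hf)) (hU _ _ hf)

theorem Synd.R (h : Synd c α T) (hσ : σ ≠ 1) (h3 : σ * σ * σ = 1) (hr : r ≠ 1)
    (hrr : r * r = 1) :
    finrank (ZMod 2) (T.map (del r) ⊓ LinearMap.ker (del σ) :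
      Submodule (ZMod 2) (G → ZMod 2)) = 1 ∧
    finrank (ZMod 2) ((T.map (del σ)).map (del r)) = 2 ∧
    finrank (ZMod 2) (T.map (del σ)) = 4 := by
  have hk := h.hk
  have hn12 := h.hn
  have hnT2 : ∀ f ∈ T.map (del σ), nrm σ f = 0 := by
    rintro _ ⟨f, -, rfl⟩
    exact nrm_self h3 f
  have a1 := rn (del σ) T
  have a2 := even_of_nrm h3 (h.hT.map σ) hnT2
  have a3 := h.three hσ h3
  have a4 := even_of_nrm h3 ((h.hT.map σ).map r)
    (fun f hf => hnT2 f ((h.hT.map σ).map_le r hf))
  have a5 := (h.hT.map σ).half hrr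
  have a6 := (h.hT.ker σ).half hrr
  have a7 : finrank (ZMod 2) (T.map (del r) ⊓ LinearMap.ker (del σ) :
      Submodule (ZMod 2) (G → ZMod 2)) ≤
      finrank (ZMod 2) ((T ⊓ LinearMap.ker (del σ)).map (del r)) := by
    apply Submodule.finrank_mono
    rintro _ ⟨⟨f, hf, rfl⟩, hf'⟩
    have e := nrm_fixed (mem_ker_del.1 hf')
    rw [← e, nrm_del]
    refine ⟨nrm σ f, ⟨nrm_mem h.hT hf, ?_⟩, rfl⟩
    exact mem_ker_del.2 (L_nrm h3 f)
  have a8 := rn (del σ) (T.map (del r))
  rw [map_comm] at a8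
  have a9 := h.big hr hrr
  obtain ⟨x, hx⟩ := a2
  obtain ⟨y, hy⟩ := a4
  have b1 : finrank (ZMod 2) ((T.map (del σ)).map (del r)) = 2 := by omega
  have b2 : finrank (ZMod 2) (T.map (del r) ⊓ LinearMap.ker (del σ) :
      Submodule (ZMod 2) (G → ZMod 2)) ≠ 0 := by
    intro h0
    have h1 : T.map (del r) ⊓ LinearMap.ker (del σ) = ⊥ := Submodule.finrank_eq_zero.1 h0
    have h2 : ∀ f ∈ T.map (del r), nrm σ f = 0 := by
      intro f hf
      have : nrm σ f ∈ T.map (del r) ⊓ LinearMap.ker (del σ) :=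
        ⟨nrm_mem (h.hT.map r) hf, mem_ker_del.2 (L_nrm h3 f)⟩
      rw [h1] at this
      exact this
    exact h.ne3 hr hrr h3 (orbit h3 (h.hT.map r) h2 (by omega) ⟨c, h.hc, rfl⟩ ⟨α, h.ha, rfl⟩
      (h.c1 r hr) (h.c1' r hr))
  refine ⟨by omega, b1, by omega⟩

/-- the elements of `(1 + r) T` fixed by `σ` are constant -/
lemma Synd.const (h : Synd c α T) (hσ : σ ≠ 1) (h3 : σ * σ * σ = 1) (hr : r ≠ 1)
    (hrr : r * r = 1) {f : G → ZMod 2} (hf : f ∈ T.map (del r)) (hf' : L σ f = f) :
    f = 0 ∨ f = fun _ => 1 := by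
  by_cases h0 : f = 0
  · exact Or.inl h0
  right
  have hm : f ∈ T.map (del r) ⊓ LinearMap.ker (del σ) := ⟨hf, mem_ker_del.2 hf'⟩
  apply const_of_inv _ h0
  intro k
  exact eq_of_finrank_one (le_of_eq (h.R hσ h3 hr hrr).1) ((h.hT.map r).ker σ k f hm) hm
    (L_ne_zero h0 k) h0

lemma Synd.K_le (h : Synd c α T) (hσ : σ ≠ 1) (h3 : σ * σ * σ = 1) (hr : r ≠ 1)
    (hrr : r * r = 1) (hs : s ≠ 1) (hss : s * s = 1) {f : G → ZMod 2} (hf : f ∈ T.map (del σ))
    (hf' : del r f = 0) : del s f = 0 := by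
  obtain ⟨-, r2, r3⟩ := h.R hσ h3 hr hrr
  have hnT2 : ∀ f ∈ T.map (del σ), nrm σ f = 0 := by
    rintro _ ⟨f, -, rfl⟩
    exact nrm_self h3 f
  have a1 := rn (del r) (T.map (del σ))
  have a2 : (T.map (del σ)).map (del r) = T.map (del σ) ⊓ LinearMap.ker (del r) := by
    apply Submodule.eq_of_le_of_finrank_eq
    · refine le_inf ((h.hT.map σ).map_le r) ?_
      rintro _ ⟨g, -, rfl⟩
      exact del_del hrr g
    · omega
  have a3 : f ∈ (T.map (del σ)).map (del r) := by
    rw [a2]
    exact ⟨hf, hf'⟩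
  have a4 := ((h.hT.map σ).map r).half hss
  have a5 := even_of_nrm h3 (((h.hT.map σ).map r).map s)
    (fun f hf => hnT2 f ((h.hT.map σ).map_le r (((h.hT.map σ).map r).map_le s hf)))
  obtain ⟨y, hy⟩ := a5
  have a6 : finrank (ZMod 2) (((T.map (del σ)).map (del r)).map (del s)) = 0 := by omega
  have a7 := Submodule.finrank_eq_zero.1 a6
  have a8 : del s f ∈ ((T.map (del σ)).map (del r)).map (del s) := ⟨f, a3, rfl⟩
  rw [a7] at a8
  exact a8

lemma del_mul (r s : G) (f : G → ZMod 2) :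
    del (r * s) f = del r f + del s f + del r (del s f) := by
  simp only [del_apply, map_add, L_L]
  have : f + L r f + (f + L s f) + (f + L r f + (L s f + L (r * s) f)) =
      (f + f) + (L r f + L r f) + (L s f + L s f) + (f + L (r * s) f) := by abel
  rw [this]
  simp only [add_self, zero_add]

lemma del_const (r : G) {f : G → ZMod 2} (hf : f = 0 ∨ f = fun _ => 1) : del r f = 0 := by
  rcases hf with rfl | rfl
  · exact map_zero _
  · rw [del_apply, add_eq_zero']
    rfl

theorem Synd.klein (h : Synd c α T) (hσ : σ ≠ 1) (h3 : σ * σ * σ = 1) (hr : r ≠ 1)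
    (hrr : r * r = 1) (hs : s ≠ 1) (hss : s * s = 1) (hrs : r ≠ s) : False := by
  have hu : r * s ≠ 1 := by
    intro e
    apply hrs
    have : s⁻¹ = s := by
      rw [inv_eq_iff_mul_eq_one]
      exact hss
    rw [← this]
    exact eq_inv_of_mul_eq_one_left e
  have huu : r * s * (r * s) = 1 := by
    rw [mul_mul_mul_comm, hrr, hss, one_mul]
  have h10 : (fun _ : G => (1 : ZMod 2)) ≠ 0 := by
    intro e
    exact one_ne_zero (congrFun e 1)
  -- case (i)
  have key : ∀ f ∈ T, (∀ x : G, x ≠ 1 → del x f ≠ 0) → del r (del σ f) ≠ 0 := by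
    intro f hf hne h0
    have hfσ : del σ f ∈ T.map (del σ) := ⟨f, hf, rfl⟩
    have hx : ∀ x : G, x ≠ 1 → x * x = 1 → del x f = fun _ => 1 := by
      intro x hx hxx
      have h1 := h.K_le hσ h3 hr hrr hx hxx hfσ h0
      rw [del_comm] at h1
      rw [del_apply, add_eq_zero'] at h1
      rcases h.const hσ h3 hx hxx ⟨f, hf, rfl⟩ h1.symm with h2 | h2
      · exact absurd h2 (hne x hx)
      · exact h2
    have h1 := del_mul r s f
    rw [hx r hr hrr, hx s hs hss, add_self, zero_add, del_const r (Or.inr rfl)] at h1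
    exact hne _ hu h1
  have kc := key c h.hc h.c1
  have ka := key α h.ha h.c1'
  have hψ : ∀ x : G, x ≠ 1 → x * x = 1 → ∀ f ∈ T, nrm σ (del x f) = 0 ∨
      nrm σ (del x f) = fun _ => 1 := by
    intro x hx hxx f hf
    exact h.const hσ h3 hx hxx (nrm_mem (h.hT.map x) ⟨f, hf, rfl⟩) (L_nrm h3 _)
  have hadd : ∀ f ∈ T, nrm σ (del (r * s) f) = nrm σ (del r f) + nrm σ (del s f) := by
    intro f hf
    rw [del_mul, map_add, map_add, nrm_del σ r (del s f), del_const r (hψ s hs hss f hf),
      add_zero]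
  have hneq : ∀ x : G, x ≠ 1 → x * x = 1 →
      nrm σ (del x c) + nrm σ (del x α) = fun _ => 1 := by
    intro x hx hxx
    have e1 : del x (del σ c) ≠ 0 := fun e => kc (h.K_le hσ h3 hx hxx hr hrr ⟨c, h.hc, rfl⟩ e)
    have e2 : del x (del σ α) ≠ 0 := fun e => ka (h.K_le hσ h3 hx hxx hr hrr ⟨α, h.ha, rfl⟩ e)
    have hne : nrm σ (del x c) ≠ nrm σ (del x α) := by
      intro e
      have hnT2 : ∀ f ∈ (T.map (del σ)).map (del x), nrm σ f = 0 := by
        rintro _ ⟨_, ⟨f, -, rfl⟩, rfl⟩
        rw [nrm_del, nrm_self h3, map_zero]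
      have ho := orbit h3 ((h.hT.map σ).map x) hnT2 (le_of_eq (h.R hσ h3 hx hxx).2.1)
        (f := del x (del σ c)) (g := del x (del σ α)) ⟨_, ⟨c, h.hc, rfl⟩, rfl⟩
        ⟨_, ⟨α, h.ha, rfl⟩, rfl⟩ e1 e2
      have d1 := decomp σ (del x c)
      have d2 := decomp σ (del x α)
      rw [← e, del_comm x σ α] at d2
      rw [del_comm x σ c] at d1
      have f1 : L σ (nrm σ (del x c)) = nrm σ (del x c) := L_nrm h3 _
      apply h.ne3 hx hxx h3
      rcases ho with o | o | o
      · left
        rw [d1, d2, o]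
      · right; left
        rw [d1, d2, o, map_add, f1]
      · right; right
        rw [d1, d2, o, map_add, ← L_L σ σ (nrm σ (del x c)), f1, f1, L_L, L_L, mul_comm]
    rcases hψ x hx hxx c h.hc with p | p <;> rcases hψ x hx hxx α h.ha with q | q
    · exact absurd (p.trans q.symm) hne
    · rw [p, q, zero_add]
    · rw [p, q, add_zero]
    · exact absurd (p.trans q.symm) hne
  have e := hneq _ hu huu
  rw [hadd c h.hc, hadd α h.ha, add_add_add_comm, hneq r hr hrr, hneq s hs hss, add_self] at e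
  exact h10 e.symm

theorem Synd.four (h : Synd c α T) (hσ : σ ≠ 1) (h3 : σ * σ * σ = 1) {t : G}
    (ht : orderOf t = 4) : False := by
  have h4 : t * t * (t * t) = 1 := by
    have := pow_orderOf_eq_one t
    rw [ht] at this
    rw [← this]
    simp only [pow_succ, pow_zero, one_mul, mul_assoc]
  have h2 : t * t ≠ 1 := by
    intro e
    have : orderOf t ∣ 2 := orderOf_dvd_of_pow_eq_one (by rw [pow_two]; exact e)
    rw [ht] at this
    revert this
    decide
  have hdd : ∀ f, del t (del t f) = del (t * t) f := by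
    intro f
    simp only [del_apply, map_add, L_L]
    have : f + L t f + (L t f + L (t * t) f) = (L t f + L t f) + (f + L (t * t) f) := by abel
    rw [this, add_self, zero_add]
  have hmm : ∀ U : Submodule (ZMod 2) (G → ZMod 2),
      (U.map (del t)).map (del t) = U.map (del (t * t)) := by
    intro U
    rw [← Submodule.map_comp]
    congr 1
    ext1 f
    ext1 g
    simp only [LinearMap.comp_apply]
    rw [hdd]
  obtain ⟨-, r2, r3⟩ := h.R hσ h3 h2 h4
  set U := T.map (del σ) with hU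
  have hUi : Inv U := h.hT.map σ
  have hnT2 : ∀ f ∈ U, nrm σ f = 0 := by
    rintro _ ⟨f, -, rfl⟩
    exact nrm_self h3 f
  have a1 := even_of_nrm h3 (hUi.map t) (fun f hf => hnT2 f (hUi.map_le t hf))
  have a2 : finrank (ZMod 2) (U.map (del t)) ≤ 4 := by
    rw [← r3]
    exact Submodule.finrank_mono (hUi.map_le t)
  have a3 : finrank (ZMod 2) (U.map (del (t * t))) ≤ finrank (ZMod 2) (U.map (del t)) := by
    rw [← hmm]
    exact Submodule.finrank_mono ((hUi.map t).map_le t)
  obtain ⟨y, hy⟩ := a1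
  have a4 : finrank (ZMod 2) (U.map (del t)) = 4 ∨ finrank (ZMod 2) (U.map (del t)) = 2 := by
    omega
  rcases a4 with a4 | a4
  · have e : U.map (del t) = U :=
      Submodule.eq_of_le_of_finrank_eq (hUi.map_le t) (by rw [a4, r3])
    rw [← hmm, e, e, r3] at r2
    omega
  · have e : (U.map (del t)).map (del t) = U.map (del t) :=
      Submodule.eq_of_le_of_finrank_eq ((hUi.map t).map_le t) (by rw [hmm, r2, a4])
    have e2 : (U.map (del (t * t))).map (del (t * t)) = U.map (del (t * t)) := by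
      rw [← hmm U, ← hmm, e, e, e]
    have e3 : (U.map (del (t * t))).map (del (t * t)) = ⊥ := by
      rw [eq_bot_iff]
      rintro _ ⟨_, ⟨f, -, rfl⟩, rfl⟩
      exact del_del h4 f
    rw [← e2, e3, finrank_bot] at r2
    omega

theorem Synd.false (h : Synd c α T) : False := by
  have h10 := h.ge_ten
  have h12 : Fintype.card G = 12 := by
    have := h.hn
    have := h.ne_ten
    have := h.ne_eleven
    omega
  obtain ⟨σ, hσ⟩ := exists_order (G := G) (p := 3) (by norm_num) (by rw [h12]; norm_num)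
  have hσ1 : σ ≠ 1 := by
    intro e
    rw [e, orderOf_one] at hσ
    omega
  have h3 : σ * σ * σ = 1 := by
    have := pow_orderOf_eq_one σ
    rw [hσ] at this
    rw [← this]
    simp only [pow_succ, pow_zero, one_mul]
  haveI := Fact.mk Nat.prime_two
  obtain ⟨H, hH⟩ := Sylow.exists_subgroup_card_pow_prime (G := G) 2 (n := 2)
    (by rw [Nat.card_eq_fintype_card, h12]; norm_num)
  by_cases h4 : ∃ t ∈ H, orderOf t = 4
  · obtain ⟨t, -, ht⟩ := h4
    exact h.four hσ1 h3 ht
  · push Not at h4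
    have hsq : ∀ x ∈ H, x * x = 1 := by
      intro x hx
      have h5 : orderOf x ∣ 4 := by
        have := Subgroup.orderOf_dvd_natCard H hx
        rw [hH] at this
        exact this
      have h6 : orderOf x = 1 ∨ orderOf x = 2 ∨ orderOf x = 4 := by
        have h7 : orderOf x ≤ 4 := Nat.le_of_dvd (by norm_num) h5
        generalize orderOf x = m at *
        interval_cases m <;> simp_all
      rcases h6 with h6 | h6 | h6
      · rw [orderOf_eq_one_iff] at h6
        rw [h6, one_mul]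
      · rw [← pow_two, ← h6]
        exact pow_orderOf_eq_one x
      · exact absurd h6 (h4 x hx)
    have hc : (H : Set G).ncard = 4 := hH
    have hex : ∀ r : G, ∃ s ∈ H, s ≠ 1 ∧ s ≠ r := by
      intro r
      by_contra hcon
      push Not at hcon
      have h5 : (H : Set G) ⊆ {1, r} := by
        intro x hx
        by_cases hx1 : x = 1
        · exact Or.inl hx1
        · exact Or.inr (hcon x hx hx1)
      have h6 := Set.ncard_le_ncard h5 (Set.toFinite _)
      have h7 := (Set.ncard_insert_le (1 : G) {r})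
      rw [Set.ncard_singleton] at h7
      omega
    obtain ⟨r, hr, hr1, -⟩ := hex 1
    obtain ⟨s, hs, hs1, hsr⟩ := hex r
    exact h.klein hσ1 h3 hr1 (hsq r hr) hs1 (hsq s hs) (Ne.symm hsr)

end Pool.Agent.V11188.MC
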